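import Pool.Agent.P.MP_d483fb_an.Z.Lie.Defs

/-!
Random paths in a group acting on the quotient by a lattice: definitions.
-/

open scoped Topology Pointwise InnerProductSpace RealInnerProductSpace ENNReal
open MeasureTheory Filter Set

noncomputable section

namespace Pool.Agent.P.MP_d483fb_an.Z

/-- A word length with respect to a compact symmetric neighbourhood of the identity. -/
structure Len (G : Type) [Group G] [TopologicalSpace G] where
  len : G → ℕ
  len_one : len 1 = 0
  len_inv : ∀ g, len g⁻¹ = len g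
  len_mul : ∀ g h, len (g * h) ≤ len g + len h
  step : ∀ g n, len g ≤ n + 1 → ∃ u g', len u ≤ 1 ∧ len g' ≤ n ∧ g = u * g'
  cpt : ∀ n, IsCompact {g | len g ≤ n}
  nhds : {g | len g ≤ 1} ∈ 𝓝 (1 : G)

/-- `y'` is reached from `y` by at most `m` pieces `y, s y, …, s ^ N y` that satisfy `P`. -/
inductive Chain {G : Type} [Group G] (P : G → ℕ → G → Prop) : ℕ → G → G → Prop
  | nil (m : ℕ) (y : G) : Chain P m y y
  | cons {m N : ℕ} {s y y' : G} : P s N y → Chain P m (s ^ N * y) y' → Chain P (m + 1) y y'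

theorem Chain.mono {G : Type} [Group G] {P : G → ℕ → G → Prop} {m m' : ℕ} {y y' : G}
    (h : Chain P m y y') (hm : m ≤ m') : Chain P m' y y' := by
  induction h generalizing m' with
  | nil m y => exact .nil _ _
  | cons hP _ ih =>
    obtain ⟨k, rfl⟩ : ∃ k, m' = k + 1 := ⟨m' - 1, by omega⟩
    exact .cons hP (ih (by omega))

theorem Chain.trans {G : Type} [Group G] {P : G → ℕ → G → Prop} {m m' : ℕ} {y y' y'' : G}
    (h : Chain P m y y') (h' : Chain P m' y' y'') : Chain P (m + m') y y'' := by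
  induction h with
  | nil m y => exact h'.mono (by omega)
  | cons hP _ ih => exact (Chain.cons hP (ih h')).mono (by omega)

theorem Chain.single {G : Type} [Group G] {P : G → ℕ → G → Prop} {N : ℕ} {s y : G}
    (h : P s N y) : Chain P 1 y (s ^ N * y) := .cons h (.nil _ _)

theorem Chain.imp {G : Type} [Group G] {P Q : G → ℕ → G → Prop} {m : ℕ} {y y' : G}
    (h : Chain P m y y') (hPQ : ∀ s N y, P s N y → Q s N y) : Chain Q m y y' := by
  induction h with
  | nil m y => exact .nil _ _
  | cons hP _ ih => exact .cons (hPQ _ _ _ hP) ih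

variable {G : Type} [Group G] [TopologicalSpace G]

/-- A piece of a path at scale `T`: a bounded jump or a part of an orbit of an element of `S`,
far from the identity. -/
def Piece (l : Len G) (Far : G → ℝ → Prop) (S : Set G) (C T : ℕ) (s : G) (N : ℕ) (y : G) : Prop :=
  l.len s ≤ C ∧ (s ∈ S ∨ N ≤ 1) ∧ N ≤ C * T ∧ ∀ j ≤ N, Far (s ^ j * y) (T / C)

/-- Linear divergence: two points far out in the direction `b` are joined by boundedly many pieces
that stay far from the identity. -/
structure Geo (l : Len G) (Far : G → ℝ → Prop) (S : Set G) where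
  b : G
  C : ℕ
  m : ℕ
  C_pos : 0 < C
  b_mem : b ∈ S
  b_inv_mem : b⁻¹ ∈ S
  far : ∀ T : ℕ, C ≤ T → Far (b ^ T) (T / C)
  chain : ∀ (n T : ℕ) (u u' : G), C * (n + 1) ≤ T → l.len u ≤ n → l.len u' ≤ n →
    Chain (Piece l Far S C T) m (b ^ T * u) (b ^ T * u')

/-- A homogeneous space with a discrete stabiliser. -/
structure Base (l : Len G) (X : Type) [TopologicalSpace X] [MulAction G X] where
  o : X
  trans : ∀ x, ∃ g : G, g • o = x
  opn : IsOpenMap fun g : G => g • o
  fin : ∀ n, {γ : G | γ • o = o ∧ l.len γ ≤ n}.Finite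

open Classical in
/-- The height of a point. -/
def Base.ht {l : Len G} {X : Type} [TopologicalSpace X] [MulAction G X] (B : Base l X) (x : X) :
    ℕ :=
  Nat.find (p := fun n => ∃ g : G, l.len g ≤ n ∧ g • B.o = x)
    (by obtain ⟨g, hg⟩ := B.trans x; exact ⟨_, g, le_rfl, hg⟩)

/-- Effective equidistribution of far translates of exponentially small random perturbations of
the base point. -/
structure Equi [MeasurableSpace G] (l : Len G) (Far : G → ℝ → Prop) {X : Type} [MulAction G X]
    [MeasurableSpace X] (o : X) (μ : Measure X) where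
  σ : ℕ → Measure G
  C : ℝ
  κ : ℝ
  κ_pos : 0 < κ
  prob : ∀ n, IsProbabilityMeasure (σ n)
  small : ∀ n, ∀ᵐ δ ∂σ n, ∀ γ, l.len γ ≤ n → l.len (γ * δ * γ⁻¹) ≤ 1
  eq : ∀ W : Set G, IsOpen W → 1 ∈ W → ∃ E : ℝ, ∀ (n : ℕ) (g : G) (t : ℝ), Far g t →
    ∀ U : Set X, MeasurableSet U →
      σ n {δ | (g * δ) • o ∈ U} ≤ μ (W • U) + ENNReal.ofReal (E * Real.exp (C * n - κ * t))

/-- `g` is at least `t` far from the identity in every simple factor. -/
def Std.Far {n k : ℕ} (D : Std G n k) (g : G) (t : ℝ) : Prop :=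
  ∃ k₁ ∈ D.K, ∃ k₂ ∈ D.K, ∃ s, g = k₁ * D.a s * k₂ ∧
    ∀ γ ∈ D.roots, ∃ β ∈ D.roots, D.Conn γ β ∧ t ≤ |⟪β, s⟫|

/-- The group generated by the Cartan subgroup and the kernel. -/
def Std.AZ {n k : ℕ} (D : Std G n k) : Subgroup G :=
  Subgroup.closure (range D.a) ⊔ D.ρ.ker

end Pool.Agent.P.MP_d483fb_an.Z
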