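import Pool.Agent.P.MP_d483fb_an.Z.Path.GeoStd
import Pool.Agent.P.MP_d483fb_an.Z.Lie.Polar

/-!
Linear divergence for groups in standard form.
-/

open scoped InnerProductSpace RealInnerProductSpace
open Set

set_option linter.unusedSectionVars false

namespace Pool.Agent.P.MP_d483fb_an.Z

variable {G : Type} [Group G] [TopologicalSpace G] [IsTopologicalGroup G] [LocallyCompactSpace G]

theorem Std.geo [ConnectedSpace G] {n k : ℕ} (D : Std G n k) (l : Len G) :
    ∃ S : Set G, IsCompact S ∧ (∀ s ∈ S, s ∈ range D.a ∨ D.ρ s = 1) ∧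
      Nonempty (Geo l D.Far S) := by
  refine D.geo_of l D.kak (fun β => D.neg_mem_roots) (fun γ hγ => ?_) fun γ hγ =>
    ⟨D.fac γ, D.fac_isIdl γ, fun β hβ h => D.gr_le_fac ⟨hβ, h⟩,
      (D.fac_le_grS γ).trans inf_le_right⟩
  obtain ⟨α, hα, h1, h2⟩ := D.rank2 hγ
  exact ⟨α, hα, .single ⟨hγ, hα, by rw [real_inner_comm]; exact h1.ne'⟩, h2⟩

end Pool.Agent.P.MP_d483fb_an.Z
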