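import Pool.Agent.P.MP_d483fb_an.Z.Path.Pieces

/-!
The lattice is finitely generated and undistorted.
-/

open scoped Topology Pointwise ENNReal
open MeasureTheory Filter Set

set_option linter.unusedSectionVars false

namespace Pool.Agent.P.MP_d483fb_an.Z

variable {G : Type} [Group G] [TopologicalSpace G] [IsTopologicalGroup G] [T2Space G]
  [LocallyCompactSpace G] [SecondCountableTopology G] [MeasurableSpace G] [BorelSpace G]
  {X : Type} [TopologicalSpace X] [T2Space X] [SecondCountableTopology X] [MeasurableSpace X]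
  [BorelSpace X] [MulAction G X] [ContinuousSMul G X]
  {μ : Measure X} [IsProbabilityMeasure μ] [SMulInvariantMeasure G X μ]
  {l : Len G} {Far : G → ℝ → Prop} {S : Set G}

namespace Base

variable (B : Base l X)

theorem measurable_ht_mul (h : G) : Measurable fun g : G => B.ht ((h * g) • B.o) :=
  B.measurable_ht.comp (Continuous.measurable (by fun_prop))

theorem Nice.ht_le {C n N : ℕ} {C₀ : ℝ≥0∞} {Er : Set G → ℝ} {τ : Measure G} {s : G}
    (h : B.Nice μ S C C₀ Er n τ s N) {j : ℕ} (hj : j ≤ N) :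
    ∀ᵐ g ∂τ, B.ht ((s ^ j * g) • B.o) ≤ (C * C + C) * (n + 1) := by
  filter_upwards [h.supp] with g hg
  have := B.ht_smul_o (s ^ j * g)
  have := l.len_mul (s ^ j) g
  have := l.len_pow s j
  have := Nat.mul_le_mul (hj.trans h.le) h.len_s
  nlinarith

/-- Uniform exponential tails along nice pieces. -/
theorem nice_tail (P : Geo l Far S) (E : Equi l Far B.o μ) {C : ℕ} (hC : 0 < C) {C₀ : ℝ≥0∞}
    (hC₀ : C₀ ≠ ∞) {Er : Set G → ℝ} (hEr : ∀ W, 0 ≤ Er W) :
    ∃ A c : ℝ, 0 ≤ A ∧ 0 < c ∧ ∀ n τ s N, B.Nice μ S C C₀ Er n τ s N → ∀ j ≤ N, ∀ t : ℕ,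
      τ.real {g | t < B.ht ((s ^ j * g) • B.o)} ≤ A * Real.exp (-c * t) := by
  obtain ⟨Ct, c, hc, ht⟩ := B.tail P E
  set W := interior {g : G | l.len g ≤ 1} with hW
  set K : ℝ := C * C + C with hK
  have hK0 : 0 < K := by positivity
  set c' := min c K⁻¹ with hc'
  have hc'0 : 0 < c' := lt_min hc (inv_pos.2 hK0)
  have hE := hEr W
  refine ⟨1 + C₀.toReal * |Ct| * Real.exp c + Er W * Real.exp 1, c', by positivity, hc'0, ?_⟩
  intro n τ s N h j hj t
  have := h.prob
  rcases t with _ | t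
  · refine measureReal_le_one.trans ?_
    simp only [Nat.cast_zero, mul_zero, Real.exp_zero, mul_one]
    have : 0 ≤ C₀.toReal * |Ct| * Real.exp c + Er W * Real.exp 1 := by positivity
    linarith
  rcases le_or_gt ((C * C + C) * (n + 1)) (t + 1) with h1 | h1
  · have : τ {g | t + 1 < B.ht ((s ^ j * g) • B.o)} = 0 := by
      refine measure_mono_null ?_ (ae_iff.1 (h.ht_le B hj))
      intro g hg
      have : t + 1 < B.ht ((s ^ j * g) • B.o) := hg
      show ¬ _
      omega
    rw [measureReal_def, this, ENNReal.toReal_zero]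
    positivity
  have hm : MeasurableSet {x | t + 1 < B.ht x} := B.measurable_ht measurableSet_Ioi
  have h2 := h.good j hj W isOpen_interior (mem_interior_iff_mem_nhds.2 l.nhds) _ hm
  have h3 : μ (W • {x | t + 1 < B.ht x}) ≤ ENNReal.ofReal (|Ct| * Real.exp (-c * t)) :=
    (measure_mono (B.smul_lt_subset t)).trans ((ht t).trans (ENNReal.ofReal_le_ofReal
      (mul_le_mul_of_nonneg_right (le_abs_self _) (Real.exp_pos _).le)))
  have h4 : τ {g | t + 1 < B.ht ((s ^ j * g) • B.o)} ≤
      ENNReal.ofReal (C₀.toReal * (|Ct| * Real.exp (-c * t)) + Er W * Real.exp (-n)) := by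
    rw [ENNReal.ofReal_add (by positivity) (by positivity),
      ENNReal.ofReal_mul ENNReal.toReal_nonneg, ENNReal.ofReal_toReal hC₀]
    exact h2.trans (by gcongr)
  refine (ENNReal.toReal_le_of_le_ofReal (by positivity) h4).trans ?_
  have t0 : (0 : ℝ) ≤ t := by positivity
  have e1 : Real.exp (-c * t) ≤ Real.exp c * Real.exp (-c' * (t + 1 : ℕ)) := by
    rw [← Real.exp_add]
    refine Real.exp_le_exp.2 ?_
    have : c' ≤ c := min_le_left _ _
    push_cast
    nlinarith
  have e2 : Real.exp (-n) ≤ Real.exp 1 * Real.exp (-c' * (t + 1 : ℕ)) := by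
    rw [← Real.exp_add]
    refine Real.exp_le_exp.2 ?_
    have h5 : c' ≤ K⁻¹ := min_le_right _ _
    have h6 : ((t + 1 : ℕ) : ℝ) ≤ K * (n + 1) := by rw [hK]; exact_mod_cast h1.le
    have h7 : c' * (t + 1 : ℕ) ≤ K⁻¹ * (K * (n + 1)) :=
      mul_le_mul h5 h6 (by positivity) (by positivity)
    rw [inv_mul_cancel_left₀ hK0.ne'] at h7
    linarith
  have e3 := Real.exp_pos (-c' * (t + 1 : ℕ))
  have e4 : C₀.toReal * (|Ct| * Real.exp (-c * t)) ≤
      C₀.toReal * (|Ct| * (Real.exp c * Real.exp (-c' * (t + 1 : ℕ)))) := by gcongr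
  have e5 : Er W * Real.exp (-n) ≤ Er W * (Real.exp 1 * Real.exp (-c' * (t + 1 : ℕ))) := by gcongr
  nlinarith

end Base

theorem integral_le_of_tail {Ω : Type} [MeasurableSpace Ω] {τ : Measure Ω}
    [IsProbabilityMeasure τ] {h : Ω → ℕ} (hm : Measurable h) {R : ℕ} (hR : ∀ᵐ w ∂τ, h w ≤ R)
    {f p : ℕ → ℝ} (hf : ∀ t, 0 ≤ f t) (hp : ∀ t, τ.real {w | t < h w} ≤ p t)
    (hs : Summable fun t => f (t + 1) * p t) :
    Integrable (fun w => f (h w)) τ ∧ ∫ w, f (h w) ∂τ ≤ f 0 + ∑' t, f (t + 1) * p t := by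
  have hms : ∀ t, MeasurableSet {w | t < h w} := fun t => hm measurableSet_Ioi
  have hi : ∀ t ∈ Finset.range R,
      Integrable (fun w => {w | t < h w}.indicator (fun _ => f (t + 1)) w) τ :=
    fun t _ => (integrable_const _).indicator (hms t)
  have hle : ∀ᵐ w ∂τ, f (h w) ≤
      f 0 + ∑ t ∈ Finset.range R, {w | t < h w}.indicator (fun _ => f (t + 1)) w := by
    filter_upwards [hR] with w hw
    have hnn : ∀ t ∈ Finset.range R, 0 ≤ {w | t < h w}.indicator (fun _ => f (t + 1)) w :=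
      fun t _ => indicator_nonneg (fun _ _ => hf _) _
    rcases hk : h w with _ | k
    · exact le_add_of_nonneg_right (Finset.sum_nonneg hnn)
    · have := Finset.single_le_sum hnn (Finset.mem_range.2 (show k < R by omega))
      rw [indicator_of_mem (show w ∈ {w | k < h w} by show k < h w; omega)] at this
      linarith [hf 0]
  have hi2 := (integrable_const (μ := τ) (f 0)).add (integrable_finsetSum _ hi)
  have hi1 : Integrable (fun w => f (h w)) τ := by
    refine hi2.mono' ((measurable_from_top (f := f)).comp hm).aestronglyMeasurable ?_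
    filter_upwards [hle] with w hw
    rwa [Real.norm_of_nonneg (hf _)]
  refine ⟨hi1, (integral_mono_ae hi1 hi2 hle).trans ?_⟩
  simp only [Pi.add_apply]
  rw [integral_add (integrable_const _) (integrable_finsetSum _ hi), integral_finsetSum _ hi]
  simp only [integral_const, probReal_univ, smul_eq_mul, one_mul]
  gcongr
  refine le_trans (Finset.sum_le_sum fun t _ => ?_) (hs.sum_le_tsum (Finset.range R) fun t _ =>
    mul_nonneg (hf _) (measureReal_nonneg.trans (hp t)))
  rw [integral_indicator_const _ (hms t), smul_eq_mul, mul_comm]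
  exact mul_le_mul_of_nonneg_left (hp t) (hf _)

namespace Base

variable (B : Base l X)

/-- The bootstrap inequality. -/
theorem boot (P : Geo l Far S) (E : Equi l Far B.o μ) :
    ∃ K c : ℝ, 0 ≤ K ∧ 0 < c ∧ ∀ (L : G → ℝ), (∀ γ, 0 ≤ L γ) →
      (∀ γ γ', γ • B.o = B.o → γ' • B.o = B.o → L (γ * γ') ≤ L γ + L γ') →
      ∀ (Λ M : ℝ) (r : ℕ), 0 ≤ Λ → 0 ≤ M → 4 ≤ r →
      (∀ γ, γ • B.o = B.o → l.len γ ≤ r → L γ ≤ Λ * (l.len γ + 1) ^ 2) →
      ∀ γ, γ • B.o = B.o →
        min (L γ) M ≤ K * (l.len γ + 1) * (Λ + M * Real.exp (-c * r)) := by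
  classical
  obtain ⟨C, m, C₀, Er, hC, hC₀, hEr, hP⟩ := B.pieces P E
  obtain ⟨A, c, hA, hc, hT⟩ := B.nice_tail P E hC hC₀ hEr
  set f : ℕ → ℝ := fun t => (2 * t + 2 * C + 1) ^ 2 with hf
  have hf0 : ∀ t, 0 ≤ f t := fun t => by positivity
  have hsum : Summable fun t : ℕ => f (t + 1) * (A * Real.exp (-c * t)) := by
    have h0 := (Real.summable_pow_mul_exp_neg_nat_mul 0 hc).mul_left (A * (2 * C + 3) ^ 2)
    have h1 := (Real.summable_pow_mul_exp_neg_nat_mul 1 hc).mul_left (A * 4 * (2 * C + 3))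
    have h2 := (Real.summable_pow_mul_exp_neg_nat_mul 2 hc).mul_left (A * 4)
    refine ((h0.add h1).add h2).congr fun t => ?_
    simp only [hf]
    push_cast
    ring
  set K2 : ℝ := f 0 + ∑' t : ℕ, f (t + 1) * (A * Real.exp (-c * t)) with hK2
  have hK20 : 0 ≤ K2 := add_nonneg (hf0 0) (tsum_nonneg fun t => by positivity)
  set A2 : ℝ := (A + 1) * Real.exp (c * (C + 1)) with hA2
  have hA20 : 0 ≤ A2 := by positivity
  refine ⟨52 + m * C * (K2 + A2), c / 2, by positivity, by positivity, ?_⟩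
  intro L hL0 hL Λ M r hΛ hM hr hind γ hγ
  choose ρ hρ hρl using B.exists_near
  have hinv : ∀ g, (ρ g)⁻¹ • B.o = B.o := fun g => by rw [inv_smul_eq_iff, hρ]
  have hq : ∀ γ k, γ • B.o = B.o → l.len γ ≤ k → k ≤ r → L γ ≤ Λ * (k + 1) ^ 2 := by
    intro γ k h1 h2 h3
    refine (hind γ h1 (h2.trans h3)).trans ?_
    have : (l.len γ : ℝ) ≤ k := by exact_mod_cast h2
    gcongr
  have hdiff : ∀ u g k, B.ht ((u * g) • B.o) + l.len u + B.ht (g • B.o) ≤ k → k ≤ r →
      L (ρ (u * g)) ≤ L (ρ g) + Λ * (k + 1) ^ 2 := by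
    intro u g k h1 h2
    have e : ρ (u * g) = (u * g * (ρ (u * g))⁻¹)⁻¹ * u * (g * (ρ g)⁻¹) * ρ g := by group
    have e' : (u * g * (ρ (u * g))⁻¹)⁻¹ * u * (g * (ρ g)⁻¹) = ρ (u * g) * (ρ g)⁻¹ := by group
    have h3 := l.len_mul3 (u * g * (ρ (u * g))⁻¹)⁻¹ u (g * (ρ g)⁻¹)
    rw [l.len_inv, e'] at h3
    have h4 : (ρ (u * g) * (ρ g)⁻¹) • B.o = B.o := by rw [mul_smul, hinv, hρ]
    have h5 := hq _ k h4 (by have := hρl (u * g); have := hρl g; omega) h2
    have h6 := hL _ _ h4 (hρ g)
    rw [inv_mul_cancel_right] at h6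
    linarith
  set ψ : ℕ → ℝ := fun h => Λ * f h + if r < 2 * h + 2 * C then M else 0 with hψ
  have hψ0 : ∀ h, 0 ≤ ψ h := fun h => add_nonneg (mul_nonneg hΛ (hf0 h)) (by split_ifs <;> linarith)
  set Ψ : G → ℝ := fun g => min (L (ρ g)) M with hΨ
  have hΨ0 : ∀ g, 0 ≤ Ψ g := fun g => le_min (hL0 _) hM
  have hmin : ∀ a b J : ℝ, 0 ≤ J → a ≤ b + J → min a M ≤ min b M + J := by
    intro a b J h1 h2
    rcases le_total b M with h | h
    · rw [min_eq_left h]
      exact (min_le_left _ _).trans h2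
    · rw [min_eq_right h]
      linarith [min_le_right a M]
  have hstep : ∀ s g, l.len s ≤ C → Ψ (s * g) ≤ Ψ g + ψ (B.ht (g • B.o)) := by
    intro s g hs
    by_cases h : r < 2 * B.ht (g • B.o) + 2 * C
    · have := hΨ0 g
      have : Ψ (s * g) ≤ M := min_le_right _ _
      have := mul_nonneg hΛ (hf0 (B.ht (g • B.o)))
      simp only [hψ, if_pos h]
      linarith
    · refine hmin _ _ _ (hψ0 _) ?_
      have h1 := B.ht_smul s (g • B.o)
      rw [← mul_smul] at h1
      have := hdiff s g (2 * B.ht (g • B.o) + 2 * C) (by omega) (by omega)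
      simp only [hψ, if_neg h, hf]
      push_cast at this
      linarith
  set n := l.len γ with hn
  have hn0 : (0 : ℝ) ≤ n := by positivity
  set e := Real.exp (-(c / 2) * r) with he
  have he0 : 0 < e := Real.exp_pos _
  have key := hP n γ hγ le_rfl Ψ
    (fun s N g => ∑ j ∈ Finset.range N, ψ (B.ht ((s ^ j * g) • B.o))) (25 * Λ)
    (C * (n + 1) * (Λ * K2 + M * (A2 * e))) (by positivity)
    (fun s N => Finset.measurable_sum _ fun j _ =>
      (measurable_from_top (f := ψ)).comp (B.measurable_ht_mul _))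
    (fun s N R => by
      refine ⟨∑ j ∈ Finset.range N, ∑ h ∈ Finset.range (l.len (s ^ j) + R + 1), ψ h,
        fun g hg => ?_⟩
      rw [abs_of_nonneg (Finset.sum_nonneg fun j _ => hψ0 _)]
      refine Finset.sum_le_sum fun j _ => Finset.single_le_sum (fun h _ => hψ0 h) ?_
      have := B.ht_smul_o (s ^ j * g)
      have := l.len_mul (s ^ j) g
      exact Finset.mem_range.2 (by omega))
    (fun s N g hs => by
      induction N with
      | zero => simp
      | succ N ih =>
        rw [Finset.sum_range_succ, pow_succ', mul_assoc]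
        have := hstep s (s ^ N * g) hs
        linarith)
    (fun u hu => by
      refine hmin _ _ _ (by positivity) ?_
      have h1 := B.ht_smul_o (u * 1)
      have := hdiff u 1 4 (by rw [one_smul, B.ht_o]; rw [mul_one] at h1 ⊢; omega) hr
      rw [mul_one] at this
      norm_num at this
      linarith)
    (fun u hu => by
      refine hmin _ _ _ (by positivity) ?_
      have h1 := B.ht_smul u (γ • B.o)
      rw [← mul_smul, hγ, B.ht_o] at h1
      have := hdiff u⁻¹ (u * γ) 4
        (by rw [inv_mul_cancel_left, hγ, B.ht_o, l.len_inv]; omega) hr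
      rw [inv_mul_cancel_left] at this
      norm_num at this
      linarith)
    (fun τ s N h => by
      have := h.prob
      have h1 : ∀ j ∈ Finset.range N, Integrable (fun g => ψ (B.ht ((s ^ j * g) • B.o))) τ ∧
          ∫ g, ψ (B.ht ((s ^ j * g) • B.o)) ∂τ ≤ Λ * K2 + M * (A2 * e) := by
        intro j hj
        have hj' := (Finset.mem_range.1 hj).le
        obtain ⟨i1, i2⟩ := integral_le_of_tail (B.measurable_ht_mul (s ^ j)) (h.ht_le B hj') hf0
          (hT n τ s N h j hj') hsum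
        have hms : MeasurableSet {g | r < 2 * B.ht ((s ^ j * g) • B.o) + 2 * C} :=
          (B.measurable_ht_mul (s ^ j)) (MeasurableSet.of_discrete (s := {h | r < 2 * h + 2 * C}))
        have e1 : (fun g => ψ (B.ht ((s ^ j * g) • B.o))) = fun g => Λ * f (B.ht ((s ^ j * g) • B.o)) +
            {g | r < 2 * B.ht ((s ^ j * g) • B.o) + 2 * C}.indicator (fun _ => M) g := by
          ext g
          simp only [hψ, indicator, mem_ofPred_eq]
        have i3 : Integrable ({g | r < 2 * B.ht ((s ^ j * g) • B.o) + 2 * C}.indicator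
            fun _ => M) τ := (integrable_const M).indicator hms
        rw [e1]
        refine ⟨(i1.const_mul Λ).add i3, ?_⟩
        rw [integral_add (i1.const_mul Λ) i3, integral_const_mul, integral_indicator_const _ hms,
          smul_eq_mul, mul_comm _ M]
        gcongr
        rcases le_or_gt (2 * C) r with h2 | h2
        · set t := (r - 2 * C) / 2 with ht
          refine le_trans (measureReal_mono ?_) ((hT n τ s N h j hj' t).trans ?_)
          · intro g hg
            have : r < 2 * B.ht ((s ^ j * g) • B.o) + 2 * C := hg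
            show t < _
            omega
          · rw [hA2, he, mul_assoc, ← Real.exp_add]
            refine mul_le_mul (by linarith) (Real.exp_le_exp.2 ?_) (Real.exp_pos _).le
              (by linarith)
            have : (r : ℝ) ≤ 2 * t + 2 * C + 1 := by exact_mod_cast (by omega)
            nlinarith
        · refine measureReal_le_one.trans ?_
          rw [hA2, he, mul_assoc, ← Real.exp_add]
          have : (r : ℝ) ≤ 2 * C := by exact_mod_cast h2.le
          have : 1 ≤ Real.exp (c * (C + 1) + -(c / 2) * r) := Real.one_le_exp (by nlinarith)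
          nlinarith
      rw [integral_finsetSum _ fun j hj => (h1 j hj).1]
      refine (Finset.sum_le_sum fun j hj => (h1 j hj).2).trans ?_
      rw [Finset.sum_const, Finset.card_range, nsmul_eq_mul]
      have : (N : ℝ) ≤ C * (n + 1) := by exact_mod_cast h.le
      gcongr)
  have h1 : Ψ 1 ≤ Λ := by
    have h2 := hρl 1
    rw [one_smul, B.ht_o, one_mul, l.len_inv] at h2
    have := hq _ 0 (hρ 1) h2 (by omega)
    norm_num at this
    exact (min_le_left _ _).trans this
  have h2 : min (L γ) M ≤ Ψ γ + Λ := by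
    refine hmin _ _ _ hΛ ?_
    have h3 := hρl γ
    rw [hγ, B.ht_o] at h3
    have h4 : (γ * (ρ γ)⁻¹) • B.o = B.o := by rw [mul_smul, hinv, hγ]
    have h5 := hq _ 0 h4 h3 (by omega)
    have h6 := hL _ _ h4 (hρ γ)
    rw [inv_mul_cancel_right] at h6
    norm_num at h5
    linarith
  have hMe : 0 ≤ M * e := by positivity
  have h3 : Λ * K2 + M * (A2 * e) ≤ (K2 + A2) * (Λ + M * e) := by
    have := mul_nonneg hK20 hMe
    have := mul_nonneg hA20 hΛ
    nlinarith
  have h4 : (m : ℝ) * (C * (n + 1) * (Λ * K2 + M * (A2 * e))) ≤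
      m * (C * (n + 1) * ((K2 + A2) * (Λ + M * e))) := by gcongr
  have h5 : 52 * Λ ≤ 52 * (n + 1) * (Λ + M * e) := by nlinarith [mul_nonneg hn0 hΛ, mul_nonneg hn0 hMe]
  calc min (L γ) M ≤ 52 * Λ + m * (C * (n + 1) * (Λ * K2 + M * (A2 * e))) := by linarith
    _ ≤ 52 * (n + 1) * (Λ + M * e) + m * (C * (n + 1) * ((K2 + A2) * (Λ + M * e))) := by linarith
    _ = _ := by ring

theorem exists_threshold {K c : ℝ} (hc : 0 < c) : ∃ n₀ : ℕ, 4 ≤ n₀ ∧ ∀ n : ℕ, n₀ ≤ n →
    K ≤ (n + 2) / 4 ∧ K * (n + 2) * Real.exp (-c * n) ≤ 1 / 4 := by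
  have h0 := (Real.summable_pow_mul_exp_neg_nat_mul 0 hc).tendsto_atTop_zero.const_mul (2 * K)
  have h1 := (Real.summable_pow_mul_exp_neg_nat_mul 1 hc).tendsto_atTop_zero.const_mul K
  have h2 := (h0.add h1).eventually (ge_mem_nhds (show (2 * K * 0 + K * 0 : ℝ) < 1 / 4 by norm_num))
  obtain ⟨a, ha⟩ := eventually_atTop.1 h2
  obtain ⟨b, hb⟩ := exists_nat_ge (4 * K)
  refine ⟨max 4 (max a b), le_max_left _ _, fun n hn => ⟨?_, ?_⟩⟩
  · have : (b : ℝ) ≤ n := by exact_mod_cast (by omega)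
    linarith
  · have := ha n (by omega)
    linarith

/-- Every subadditive function on the lattice is at most linear. -/
theorem lmr (P : Geo l Far S) (E : Equi l Far B.o μ) (L : G → ℝ)
    (hL : ∀ γ γ', γ • B.o = B.o → γ' • B.o = B.o → L (γ * γ') ≤ L γ + L γ') :
    ∃ C : ℝ, ∀ γ, γ • B.o = B.o → L γ ≤ C * (l.len γ + 1) := by
  obtain ⟨K, c, hK, hc, h⟩ := B.boot P E
  set L' : G → ℝ := fun γ => max (L γ) 0 with hL'
  have h0 : ∀ γ, 0 ≤ L' γ := fun γ => le_max_right _ _
  have h1 : ∀ γ γ', γ • B.o = B.o → γ' • B.o = B.o → L' (γ * γ') ≤ L' γ + L' γ' := by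
    intro γ γ' a b
    refine max_le ((hL _ _ a b).trans (add_le_add (le_max_left _ _) (le_max_left _ _))) ?_
    exact add_nonneg (h0 _) (h0 _)
  obtain ⟨n₀, hn₀, hn⟩ := exists_threshold (K := K) hc
  obtain ⟨Λ₀, hΛ₀⟩ := ((B.fin n₀).image L').bddAbove
  set Λ := max Λ₀ 1 with hΛ
  have hΛ1 : 1 ≤ Λ := le_max_right _ _
  have hquad : ∀ n, ∀ γ, γ • B.o = B.o → l.len γ ≤ n → L' γ ≤ Λ * (l.len γ + 1) ^ 2 := by
    intro n
    induction n with
    | zero =>
      intro γ a b
      have : L' γ ≤ Λ := (hΛ₀ ⟨γ, ⟨a, by omega⟩, rfl⟩).trans (le_max_left _ _)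
      have : (0 : ℝ) ≤ l.len γ := by positivity
      nlinarith [mul_nonneg (zero_le_one.trans hΛ1) (mul_nonneg this this),
        mul_nonneg (zero_le_one.trans hΛ1) this]
    | succ n ih =>
      intro γ a b
      rcases le_or_gt (l.len γ) n₀ with h2 | h2
      · have : L' γ ≤ Λ := (hΛ₀ ⟨γ, ⟨a, h2⟩, rfl⟩).trans (le_max_left _ _)
        have : (0 : ℝ) ≤ l.len γ := by positivity
        nlinarith [mul_nonneg (zero_le_one.trans hΛ1) (mul_nonneg this this),
          mul_nonneg (zero_le_one.trans hΛ1) this]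
      rcases le_or_gt (l.len γ) n with h3 | h3
      · exact ih γ a h3
      have e : l.len γ = n + 1 := by omega
      obtain ⟨q1, q2⟩ := hn n (by omega)
      have n0 : (0 : ℝ) ≤ n := by positivity
      have := h L' h0 h1 Λ (Λ * (n + 2) ^ 2) n (by linarith) (by positivity) (by omega) ih γ a
      rw [e] at this ⊢
      push_cast at this ⊢
      have hM : 0 < Λ * ((n : ℝ) + 2) ^ 2 := by positivity
      have b1 : K * (n + 1 + 1) * Λ ≤ Λ * (n + 2) ^ 2 / 4 := by
        have : K * ((n + 2) * Λ) ≤ (n + 2) / 4 * ((n + 2) * Λ) := by gcongr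
        nlinarith
      have b2 : K * (n + 1 + 1) * (Λ * (n + 2) ^ 2 * Real.exp (-c * n)) ≤ Λ * (n + 2) ^ 2 / 4 := by
        have := mul_le_mul_of_nonneg_left q2 hM.le
        nlinarith
      have b3 : min (L' γ) (Λ * (n + 2) ^ 2) < Λ * (n + 2) ^ 2 := by nlinarith
      have := (min_lt_iff.1 b3).resolve_right (lt_irrefl _)
      nlinarith
  refine ⟨K * Λ, fun γ a => (le_max_left (L γ) 0).trans ?_⟩
  have h2 : Tendsto (fun r : ℕ => K * (l.len γ + 1) * (Λ + L' γ * Real.exp (-c * r))) atTop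
      (𝓝 (K * (l.len γ + 1) * (Λ + L' γ * 0))) := by
    have := (Real.summable_pow_mul_exp_neg_nat_mul 0 hc).tendsto_atTop_zero
    simp only [pow_zero, one_mul] at this
    exact ((this.const_mul _).const_add _).const_mul _
  have h3 := ge_of_tendsto h2 (eventually_atTop.2 ⟨4, fun r hr => by
    simpa using h L' h0 h1 Λ (L' γ) r (by linarith) (h0 γ) hr (hquad r) γ a⟩ :
      ∀ᶠ r : ℕ in atTop, L' γ ≤ _)
  calc L' γ ≤ _ := h3
    _ = _ := by ring

/-- The lattice is generated by a finite ball. -/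
theorem fg (P : Geo l Far S) (E : Equi l Far B.o μ) :
    ∃ R : ℕ, MulAction.stabilizer G B.o ≤
      Subgroup.closure {γ | γ • B.o = B.o ∧ l.len γ ≤ R} := by
  classical
  obtain ⟨K, c, hK, hc, h⟩ := B.boot P E
  obtain ⟨n₀, hn₀, hn⟩ := exists_threshold (K := K) hc
  refine ⟨n₀, ?_⟩
  set H := Subgroup.closure {γ | γ • B.o = B.o ∧ l.len γ ≤ n₀} with hH
  set L : G → ℝ := fun γ => if γ ∈ H then 0 else 1 with hL
  have h0 : ∀ γ, 0 ≤ L γ := fun γ => by simp only [hL]; split_ifs <;> norm_num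
  have h1 : ∀ γ γ', γ • B.o = B.o → γ' • B.o = B.o → L (γ * γ') ≤ L γ + L γ' := by
    intro γ γ' _ _
    by_cases a : γ ∈ H <;> by_cases b : γ' ∈ H
    · simp [hL, a, b, H.mul_mem a b]
    all_goals
      simp only [hL, a, b, if_true, if_false]
      split_ifs <;> norm_num
  have : ∀ n, ∀ γ, γ • B.o = B.o → l.len γ ≤ n → γ ∈ H := by
    intro n
    induction n with
    | zero => exact fun γ a b => Subgroup.subset_closure ⟨a, by omega⟩
    | succ n ih =>
      intro γ a b
      rcases le_or_gt (l.len γ) n₀ with h2 | h2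
      · exact Subgroup.subset_closure ⟨a, h2⟩
      rcases le_or_gt (l.len γ) n with h3 | h3
      · exact ih γ a h3
      have e : l.len γ = n + 1 := by omega
      obtain ⟨q1, q2⟩ := hn n (by omega)
      have n0 : (0 : ℝ) ≤ n := by positivity
      have := h L h0 h1 (((n : ℝ) + 2) ^ 2)⁻¹ 1 n (by positivity) zero_le_one (by omega)
        (fun γ' a' b' => by simp only [hL, if_pos (ih γ' a' b')]; positivity) γ a
      by_contra hγ
      rw [e] at this
      simp only [hL, if_neg hγ, min_self] at this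
      push_cast at this
      have b1 : K * (n + 1 + 1) * (((n : ℝ) + 2) ^ 2)⁻¹ ≤ 1 / 4 := by
        rw [← div_eq_mul_inv, div_le_iff₀ (by positivity)]
        nlinarith
      nlinarith
  exact fun γ hγ => this _ γ hγ le_rfl

end Base

end Pool.Agent.P.MP_d483fb_an.Z
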