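import Mathlib

/-!
Polygons in a flat of rank at least two that avoid a bounded set in every factor.
-/

open scoped InnerProductSpace RealInnerProductSpace
open Set

set_option linter.unusedSectionVars false
set_option linter.unusedVariables false

noncomputable section

namespace Pool.Agent.P.MP_d483fb_an.Z

variable {E : Type*} [NormedAddCommGroup E] [InnerProductSpace ℝ E]

/-- The maximum of the absolute values of finitely many linear forms. -/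
def pc (c : Finset E) : Seminorm ℝ E :=
  c.sup fun β => (normSeminorm ℝ ℝ).comp (innerₛₗ ℝ β)

theorem le_pc {c : Finset E} {β : E} (h : β ∈ c) (s : E) : |⟪β, s⟫| ≤ pc c s :=
  Seminorm.le_finset_sup_apply (p := fun β => (normSeminorm ℝ ℝ).comp (innerₛₗ ℝ β)) h

theorem exists_pc {c : Finset E} (h : c.Nonempty) (s : E) : ∃ β ∈ c, pc c s = |⟪β, s⟫| :=
  Seminorm.exists_apply_eq_finset_sup (fun β => (normSeminorm ℝ ℝ).comp (innerₛₗ ℝ β)) h s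

theorem pc_le {c : Finset E} (h : c.Nonempty) {s : E} {t : ℝ} (ht : ∀ β ∈ c, |⟪β, s⟫| ≤ t) :
    pc c s ≤ t := by
  obtain ⟨β, hβ, h1⟩ := exists_pc h s
  exact h1 ▸ ht β hβ

theorem exists_pc_pos {c : Finset E} (h : c.Nonempty) (hneg : ∀ β ∈ c, -β ∈ c) (s : E) :
    ∃ β ∈ c, pc c s = ⟪β, s⟫ := by
  obtain ⟨β, hβ, h1⟩ := exists_pc h s
  rcases abs_cases ⟪β, s⟫ with h2 | h2
  · exact ⟨β, hβ, h1.trans h2.1⟩
  · exact ⟨-β, hneg β hβ, by rw [inner_neg_left]; exact h1.trans h2.1⟩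

theorem pc_le_norm (c : Finset E) (s : E) : pc c s ≤ (∑ β ∈ c, ‖β‖) * ‖s‖ := by
  rcases c.eq_empty_or_nonempty with rfl | h
  · simp [pc]
  refine pc_le h fun β hβ => (abs_real_inner_le_norm β s).trans ?_
  gcongr
  exact Finset.single_le_sum (f := fun β => ‖β‖) (fun _ _ => norm_nonneg _) hβ

/-- a direction in the span of `c` inside two given closed half spaces -/
theorem exists_dir {c : Finset E} {γ₁ γ₂ : E} (h₁ : γ₁ ∈ c) (h₂ : γ₂ ∈ c) (h0 : γ₁ ≠ 0)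
    (hne : ∀ t : ℝ, γ₂ ≠ t • γ₁) (δ₁ δ₂ : E) :
    ∃ w : E, (∀ β, (∀ γ ∈ c, ⟪β, γ⟫ = 0) → ⟪β, w⟫ = 0) ∧ 0 ≤ ⟪δ₁, w⟫ ∧ 0 ≤ ⟪δ₂, w⟫ ∧
      pc c w = 1 := by
  have key : ∃ x y : ℝ, x • γ₁ + y • γ₂ ≠ 0 ∧ ⟪δ₁, x • γ₁ + y • γ₂⟫ = 0 := by
    by_cases h : ⟪δ₁, γ₁⟫ = 0
    · exact ⟨1, 0, by simpa using h0, by simpa using h⟩
    · refine ⟨⟪δ₁, γ₂⟫, -⟪δ₁, γ₁⟫, fun h1 => hne (⟪δ₁, γ₂⟫ / ⟪δ₁, γ₁⟫) ?_, ?_⟩
      · rw [neg_smul, add_neg_eq_zero] at h1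
        rw [div_eq_inv_mul, mul_smul, h1, smul_smul, inv_mul_cancel₀ h, one_smul]
      · simp only [inner_add_right, inner_smul_right]
        ring
  obtain ⟨x, y, hw, hδ⟩ := key
  set w := x • γ₁ + y • γ₂ with hwd
  have hp : 0 < pc c w := by
    refine (apply_nonneg _ _).lt_of_ne fun h => hw ?_
    have e1 : ⟪γ₁, w⟫ = 0 := abs_nonpos_iff.1 (h ▸ le_pc h₁ w)
    have e2 : ⟪γ₂, w⟫ = 0 := abs_nonpos_iff.1 (h ▸ le_pc h₂ w)
    have : ⟪x • γ₁ + y • γ₂, w⟫ = 0 := by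
      rw [inner_add_left, real_inner_smul_left, real_inner_smul_left, e1, e2]
      simp
    exact inner_self_eq_zero.1 this
  have horth : ∀ β, (∀ γ ∈ c, ⟪β, γ⟫ = 0) → ⟪β, w⟫ = 0 := fun β hβ => by
    rw [hwd, inner_add_right, inner_smul_right, inner_smul_right, hβ _ h₁, hβ _ h₂]
    simp
  rcases le_total 0 ⟪δ₂, w⟫ with h | h
  · refine ⟨(pc c w)⁻¹ • w, fun β hβ => ?_, ?_, ?_, ?_⟩
    · rw [inner_smul_right, horth β hβ, mul_zero]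
    · rw [inner_smul_right, hδ, mul_zero]
    · rw [inner_smul_right]; positivity
    · rw [map_smul_eq_mul, Real.norm_of_nonneg (by positivity), inv_mul_cancel₀ hp.ne']
  · refine ⟨-((pc c w)⁻¹ • w), fun β hβ => ?_, ?_, ?_, ?_⟩
    · rw [inner_neg_right, inner_smul_right, horth β hβ, mul_zero, neg_zero]
    · rw [inner_neg_right, inner_smul_right, hδ, mul_zero, neg_zero]
    · rw [inner_neg_right, inner_smul_right, Left.nonneg_neg_iff]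
      exact mul_nonpos_of_nonneg_of_nonpos (by positivity) h
    · rw [map_neg_eq_map, map_smul_eq_mul, Real.norm_of_nonneg (by positivity),
        inv_mul_cancel₀ hp.ne']

/-- the polygon in one factor -/
theorem exists_poly_one {c : Finset E} (hneg : ∀ β ∈ c, -β ∈ c) {γ₁ γ₂ : E} (h₁ : γ₁ ∈ c)
    (h₂ : γ₂ ∈ c) (h0 : γ₁ ≠ 0) (hne : ∀ t : ℝ, γ₂ ≠ t • γ₁) :
    ∃ C : ℝ, 0 ≤ C ∧ ∀ (f : E → ℝ), (∀ s s', f s ≤ f s' + pc c (s - s')) →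
      (∀ s s', pc c (s - s') ≤ f s + f s') → ∀ (H : E) (R : ℝ), 0 ≤ R → 3 * R ≤ f 0 →
      3 * R ≤ f H → ∃ w : E, (∀ β, (∀ γ ∈ c, ⟪β, γ⟫ = 0) → ⟪β, w⟫ = 0) ∧
        ‖w‖ ≤ C * (R + ‖H‖) ∧ ∀ t ∈ Icc (0 : ℝ) 1,
          R ≤ f (t • w) ∧ R ≤ f (w + t • H) ∧ R ≤ f (H + t • w) := by
  classical
  have hc : c.Nonempty := ⟨_, h₁⟩
  choose d hd using exists_dir h₁ h₂ h0 hne
  set B : ℝ := ∑ p ∈ c ×ˢ c, ‖d p.1 p.2‖ with hB
  set A : ℝ := ∑ β ∈ c, ‖β‖ with hA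
  have hB0 : 0 ≤ B := Finset.sum_nonneg fun _ _ => norm_nonneg _
  have hA0 : 0 ≤ A := Finset.sum_nonneg fun _ _ => norm_nonneg _
  refine ⟨B * (4 + 2 * A), by positivity, fun f hf1 hf2 H R hR hf0 hfH => ?_⟩
  have hzero : ∀ β, (∀ γ ∈ c, ⟪β, γ⟫ = 0) → ⟪β, (0 : E)⟫ = 0 := fun β _ => inner_zero_right β
  have hH : ∀ t ∈ Icc (0 : ℝ) 1, pc c (t • H) ≤ pc c H := fun t ht => by
    rw [map_smul_eq_mul, Real.norm_of_nonneg ht.1]
    exact mul_le_of_le_one_left (apply_nonneg _ _) ht.2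
  by_cases hbad : ∀ s, R ≤ f s
  · exact ⟨0, hzero, by rw [norm_zero]; positivity, fun t _ => ⟨hbad _, hbad _, hbad _⟩⟩
  obtain ⟨x, hx⟩ := not_forall.1 hbad
  rw [not_le] at hx
  have hav : ∀ s, 2 * R ≤ pc c (s - x) → R ≤ f s := fun s hs => by linarith [hf2 s x]
  have hx0 : 2 * R ≤ pc c (0 - x) := by linarith [hf1 0 x]
  have hxH : 2 * R ≤ pc c (H - x) := by linarith [hf1 H x]
  by_cases hbig : 2 * R + pc c H ≤ pc c x
  · refine ⟨0, hzero, by rw [norm_zero]; positivity, fun t ht => ⟨?_, ?_, ?_⟩⟩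
    · rw [smul_zero]; linarith
    · refine hav _ ?_
      have h1 := map_sub_le_add (pc c) (t • H) (t • H - x)
      rw [sub_sub_cancel] at h1
      rw [zero_add]
      linarith [hH t ht]
    · rw [smul_zero, add_zero]; linarith
  rw [not_le] at hbig
  obtain ⟨δ₁, hδ₁, e₁⟩ := exists_pc_pos hc hneg (0 - x)
  obtain ⟨δ₂, hδ₂, e₂⟩ := exists_pc_pos hc hneg (H - x)
  obtain ⟨d0, d1, d2, d3⟩ := hd δ₁ δ₂
  set r : ℝ := 4 * R + 2 * pc c H with hr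
  have hr0 : 0 ≤ r := by have := apply_nonneg (pc c) H; positivity
  refine ⟨r • d δ₁ δ₂, fun β hβ => by rw [inner_smul_right, d0 β hβ, mul_zero], ?_,
    fun t ht => ⟨hav _ ?_, hav _ ?_, hav _ ?_⟩⟩
  · have h1 : ‖d δ₁ δ₂‖ ≤ B :=
      Finset.single_le_sum (f := fun p : E × E => ‖d p.1 p.2‖) (fun _ _ => norm_nonneg _)
        (Finset.mk_mem_product hδ₁ hδ₂)
    have h2 : r ≤ (4 + 2 * A) * (R + ‖H‖) := by
      have := pc_le_norm c H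
      have := norm_nonneg H
      nlinarith
    rw [norm_smul, Real.norm_of_nonneg hr0, mul_comm B, mul_right_comm]
    gcongr
  · refine le_trans ?_ ((le_abs_self _).trans (le_pc hδ₁ _))
    rw [e₁, zero_sub, inner_neg_right] at hx0
    rw [inner_sub_right, inner_smul_right, inner_smul_right]
    have := mul_nonneg ht.1 (mul_nonneg hr0 d1)
    linarith
  · have h1 : pc c (r • d δ₁ δ₂) = r := by
      rw [map_smul_eq_mul, d3, Real.norm_of_nonneg hr0, mul_one]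
    have h2 := map_sub_le_add (pc c) (r • d δ₁ δ₂ + t • H - x) (t • H - x)
    have h3 : r • d δ₁ δ₂ + t • H - x - (t • H - x) = r • d δ₁ δ₂ := by abel
    rw [h3, h1] at h2
    linarith [map_sub_le_add (pc c) (t • H) x, hH t ht]
  · refine le_trans ?_ ((le_abs_self _).trans (le_pc hδ₂ _))
    rw [e₂, inner_sub_right] at hxH
    rw [inner_sub_right, inner_add_right, inner_smul_right, inner_smul_right]
    have := mul_nonneg ht.1 (mul_nonneg hr0 d2)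
    linarith

/-- the polygon for finitely many mutually orthogonal factors -/
theorem exists_poly (𝒞 : Finset (Finset E)) (hneg : ∀ c ∈ 𝒞, ∀ β ∈ c, -β ∈ c)
    (htwo : ∀ c ∈ 𝒞, ∃ γ₁ ∈ c, ∃ γ₂ ∈ c, γ₁ ≠ 0 ∧ ∀ t : ℝ, γ₂ ≠ t • γ₁)
    (horth : ∀ c ∈ 𝒞, ∀ c' ∈ 𝒞, c ≠ c' → ∀ β ∈ c, ∀ γ ∈ c', ⟪β, γ⟫ = 0) :
    ∃ C : ℝ, 0 ≤ C ∧ ∀ (f : Finset E → E → ℝ),
      (∀ c ∈ 𝒞, ∀ s s', f c s ≤ f c s' + pc c (s - s')) →
      (∀ c ∈ 𝒞, ∀ s s', pc c (s - s') ≤ f c s + f c s') → ∀ (H : E) (R : ℝ), 0 ≤ R →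
      (∀ c ∈ 𝒞, 3 * R ≤ f c 0) → (∀ c ∈ 𝒞, 3 * R ≤ f c H) → ∃ w : E,
        ‖w‖ ≤ C * (R + ‖H‖) ∧ ∀ c ∈ 𝒞, ∀ t ∈ Icc (0 : ℝ) 1,
          R ≤ f c (t • w) ∧ R ≤ f c (w + t • H) ∧ R ≤ f c (H + t • w) := by
  classical
  choose γ₁ h₁ γ₂ h₂ h0 hne using fun c : 𝒞 => htwo c c.2
  choose C hC0 hC using fun c : 𝒞 => exists_poly_one (hneg c c.2) (h₁ c) (h₂ c) (h0 c) (hne c)
  refine ⟨∑ c, C c, Finset.sum_nonneg fun c _ => hC0 c, fun f hf1 hf2 H R hR hf0 hfH => ?_⟩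
  choose w hw0 hw1 hw2 using fun c : 𝒞 =>
    hC c (f c) (hf1 c c.2) (hf2 c c.2) H R hR (hf0 c c.2) (hfH c c.2)
  refine ⟨∑ c, w c, ?_, fun c hc t ht => ?_⟩
  · rw [Finset.sum_mul]
    exact norm_sum_le_of_le _ fun c _ => hw1 c
  have hne : c.Nonempty := ⟨_, h₁ ⟨c, hc⟩⟩
  have h2 : ∀ r : ℝ, pc c (r • (w ⟨c, hc⟩ - ∑ c, w c)) ≤ 0 := by
    intro r
    refine pc_le hne fun β hβ => ?_
    rw [inner_smul_right, inner_sub_right, inner_sum,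
      Finset.sum_eq_single ⟨c, hc⟩ (fun c' _ hc' => ?_) (by simp)]
    · simp
    · exact hw0 c' β fun γ hγ => horth c hc c' c'.2 (fun h => hc' (Subtype.ext h.symm)) β hβ γ hγ
  obtain ⟨a1, a2, a3⟩ := hw2 ⟨c, hc⟩ t ht
  refine ⟨a1.trans ?_, a2.trans ?_, a3.trans ?_⟩
  · have h3 := hf1 c hc (t • w ⟨c, hc⟩) (t • ∑ c, w c)
    rw [← smul_sub] at h3
    linarith [h2 t]
  · have h3 := hf1 c hc (w ⟨c, hc⟩ + t • H) (∑ c, w c + t • H)
    rw [add_sub_add_right_eq_sub] at h3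
    have h4 := h2 1
    rw [one_smul] at h4
    linarith
  · have h3 := hf1 c hc (H + t • w ⟨c, hc⟩) (H + t • ∑ c, w c)
    rw [add_sub_add_left_eq_sub, ← smul_sub] at h3
    linarith [h2 t]

end Pool.Agent.P.MP_d483fb_an.Z
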