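import Pool.Agent.P.MP_d483fb_an.Z.Path.Len
import Pool.Agent.P.MP_d483fb_an.Z.Path.GeoPoly

/-!
Linear divergence from an abstract Cartan decomposition.
-/

open scoped InnerProductSpace RealInnerProductSpace
open Set

set_option linter.unusedSectionVars false
set_option linter.unusedVariables false

noncomputable section

namespace Pool.Agent.P.MP_d483fb_an.Z

theorem prod_eq_filter_mul {G : Type} [Group G] [DecidableEq G] {t : G} (ht : ∀ g, t * g = g * t)
    (L : List G) : L.prod = (L.filter fun x => x ≠ t).prod * t ^ L.count t := by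
  induction L with
  | nil => simp
  | cons x L ih =>
    rcases eq_or_ne x t with rfl | hx
    · rw [List.prod_cons, ih, List.filter_cons_of_neg (by simp), List.count_cons_self, pow_succ',
        ← mul_assoc, ht, mul_assoc]
    · rw [List.prod_cons, ih, List.filter_cons_of_pos (by simpa using hx),
        List.count_cons_of_ne hx, List.prod_cons, mul_assoc]

theorem chain_word {G : Type} [Group G] {P : G → ℕ → G → Prop} {Good : G → Prop} {B : ℕ}
    (T : Finset G) (hc : ∀ t ∈ T, ∀ g, t * g = g * t) (hG : ∀ t ∈ T, ∀ y, Good y → Good (t * y))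
    (hP : ∀ t ∈ T, ∀ N ≤ B, ∀ y, Good y → P t N y) (L : List G) (hL : ∀ t ∈ L, t ∈ T)
    (hB : L.length ≤ B) (y : G) (hy : Good y) : Chain P T.card y (L.prod * y) := by
  classical
  induction T using Finset.induction_on generalizing L y with
  | empty =>
    obtain rfl : L = [] := List.eq_nil_iff_forall_not_mem.2 fun t ht => by simpa using hL t ht
    simpa using Chain.nil _ y
  | insert t T htT ih =>
    have ht : t ∈ insert t T := Finset.mem_insert_self t T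
    have hpow : ∀ N : ℕ, Good (t ^ N * y) := by
      intro N
      induction N with
      | zero => simpa using hy
      | succ N ih => rw [pow_succ', mul_assoc]; exact hG t ht _ ih
    rw [Finset.card_insert_of_notMem htT, prod_eq_filter_mul (hc t ht) L, mul_assoc]
    refine Chain.cons (hP t ht (L.count t) (List.count_le_length.trans hB) y hy) ?_
    refine ih (fun s hs => hc s (Finset.mem_insert_of_mem hs))
      (fun s hs => hG s (Finset.mem_insert_of_mem hs))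
      (fun s hs => hP s (Finset.mem_insert_of_mem hs)) _ (fun s hs => ?_)
      ((List.length_filter_le _ _).trans hB) _ (hpow _)
    rw [List.mem_filter] at hs
    exact (Finset.mem_insert.1 (hL s hs.1)).resolve_left (by simpa using hs.2)

variable {G : Type} [Group G] [TopologicalSpace G] [IsTopologicalGroup G] {E : Type}
  [NormedAddCommGroup E] [InnerProductSpace ℝ E] [ProperSpace E]

theorem geo_abs (l : Len G) (Far : G → ℝ → Prop) (a : E → G)
    (a_add : ∀ s t, a (s + t) = a s * a t) (a_cont : Continuous a) (𝒞 : Finset (Finset E))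
    (hneg : ∀ c ∈ 𝒞, ∀ β ∈ c, -β ∈ c)
    (htwo : ∀ c ∈ 𝒞, ∃ γ₁ ∈ c, ∃ γ₂ ∈ c, γ₁ ≠ 0 ∧ ∀ t : ℝ, γ₂ ≠ t • γ₁)
    (horth : ∀ c ∈ 𝒞, ∀ c' ∈ 𝒞, c ≠ c' → ∀ β ∈ c, ∀ γ ∈ c', ⟪β, γ⟫ = 0)
    (ℓ : Finset E → G → ℝ) (ℓ_mul : ∀ c ∈ 𝒞, ∀ g h, ℓ c (g * h) ≤ ℓ c g + ℓ c h)
    (ℓ_inv : ∀ c ∈ 𝒞, ∀ g, ℓ c g⁻¹ = ℓ c g) (ℓ_a : ∀ c ∈ 𝒞, ∀ s, ℓ c (a s) = pc c s)
    {Cl : ℝ} (ℓ_bd : ∀ c ∈ 𝒞, ∀ g, ℓ c g ≤ Cl * (l.len g + 1))
    (far : ∀ g t, (∀ c ∈ 𝒞, t ≤ ℓ c g) → Far g t) {s₀ : E} (hs₀ : ‖s₀‖ ≤ 1)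
    (hs₁ : ∀ c ∈ 𝒞, 0 < pc c s₀) {K : Set G} (hK : IsCompact K) (T : Finset G)
    (hT : ∀ t ∈ T, ∀ g, t * g = g * t) (ℓ_K : ∀ c ∈ 𝒞, ∀ y ∈ K, ℓ c y ≤ 0)
    (ℓ_T : ∀ c ∈ 𝒞, ∀ y ∈ T, ℓ c y ≤ 0) {Cd : ℕ}
    (dec : ∀ g, ∃ y ∈ K, ∃ y' ∈ K, ∃ (H : E) (L : List G), (∀ t ∈ L, t ∈ T) ∧
      L.length ≤ Cd * (l.len g + 1) ∧ ‖H‖ ≤ Cd * (l.len g + 1) ∧ g = L.prod * (y * a H * y')) :
    Nonempty (Geo l Far (a '' Metric.closedBall 0 1 ∪ T)) := by
  have a_zero : a 0 = 1 := by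
    have h := a_add 0 0
    rwa [add_zero, left_eq_mul] at h
  have a_neg : ∀ s, a (-s) = (a s)⁻¹ := fun s =>
    eq_inv_of_mul_eq_one_left (by rw [← a_add, neg_add_cancel, a_zero])
  have a_pow : ∀ (s : E) (j : ℕ), a s ^ j = a ((j : ℝ) • s) := by
    intro s j
    induction j with
    | zero => simp [a_zero]
    | succ j ih => rw [pow_succ, ih, ← a_add, Nat.cast_succ, add_smul, one_smul]
  set S : Set G := a '' Metric.closedBall 0 1 ∪ T with hS
  have hSc : IsCompact (S ∪ K) :=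
    (((isCompact_closedBall 0 1).image a_cont).union T.finite_toSet.isCompact).union hK
  obtain ⟨B, hB⟩ := l.bdd hSc
  obtain ⟨Cp, hCp0, hCp⟩ := exists_poly 𝒞 hneg htwo horth
  obtain ⟨κ, hκ0, hκ⟩ : ∃ κ : ℝ, 0 < κ ∧ ∀ c ∈ 𝒞, κ ≤ pc c s₀ := by
    rcases 𝒞.eq_empty_or_nonempty with rfl | h
    · exact ⟨1, one_pos, by simp⟩
    · obtain ⟨c, hc, h1⟩ := 𝒞.exists_min_image (fun c => pc c s₀) h
      exact ⟨_, hs₁ c hc, h1⟩
  set h : ℕ := Cd * (2 * B + 3) with hh
  obtain ⟨C, hC⟩ := exists_nat_ge (1 + B + h + Cp * (1 + h) + (|Cl| + 3) / κ)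
  have hpos : 0 ≤ (|Cl| + 3) / κ := by positivity
  have hpos' : 0 ≤ Cp * (1 + h) := by positivity
  have hB0 : (0 : ℝ) ≤ B := B.cast_nonneg
  have hh0 : (0 : ℝ) ≤ h := h.cast_nonneg
  have hC1 : (1 : ℝ) ≤ C := by linarith
  have hC0 : 0 < C := by exact_mod_cast one_pos.trans_le hC1
  have hBC : B ≤ C := by exact_mod_cast (by linarith : (B : ℝ) ≤ C)
  have hhC : h ≤ C := by exact_mod_cast (by linarith : (h : ℝ) ≤ C)
  have hκC : |Cl| + 3 ≤ κ * C := by
    have : (|Cl| + 3) / κ ≤ C := by linarith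
    rwa [div_le_iff₀ hκ0, mul_comm] at this
  have hb : a s₀ ∈ S := Or.inl ⟨s₀, by simpa using hs₀, rfl⟩
  have hlow : ∀ c ∈ 𝒞, ∀ y g, ℓ c y ≤ 0 → ℓ c g ≤ ℓ c (y * g) := fun c hc y g hy => by
    have h1 := ℓ_mul c hc y⁻¹ (y * g)
    rw [inv_mul_cancel_left, ℓ_inv c hc] at h1
    linarith
  have hbT : ∀ c ∈ 𝒞, ∀ T : ℕ, κ * T ≤ ℓ c (a s₀ ^ T) := fun c hc T => by
    rw [a_pow, ℓ_a c hc, map_smul_eq_mul, Real.norm_natCast, mul_comm]
    exact mul_le_mul_of_nonneg_left (hκ c hc) T.cast_nonneg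
  refine ⟨⟨a s₀, C, 5 + T.card, hC0, hb, Or.inl ⟨-s₀, by simpa using hs₀, a_neg _⟩,
    fun N _ => far _ _ fun c hc => le_trans ?_ (hbT c hc N), fun n N u u' hN hu hu' => ?_⟩⟩
  · rw [div_le_iff₀ (by linarith), mul_right_comm]
    exact le_mul_of_one_le_left N.cast_nonneg (by linarith [abs_nonneg Cl])
  have hNn : n + 1 ≤ N := le_trans (Nat.le_mul_of_pos_left _ hC0) hN
  have hN1 : (1 : ℝ) ≤ N := by exact_mod_cast (by omega : 1 ≤ N)
  set R : ℝ := N / C with hR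
  have hR0 : 0 ≤ R := by positivity
  have hRN : R ≤ N := div_le_self (by linarith) hC1
  have hend : ∀ c ∈ 𝒞, ∀ u, l.len u ≤ n → 3 * R ≤ ℓ c (a s₀ ^ N * u) := by
    intro c hc u hu
    have h1 := ℓ_mul c hc (a s₀ ^ N * u) u⁻¹
    rw [mul_inv_cancel_right, ℓ_inv c hc] at h1
    have h2 : ((l.len u : ℝ) + 1) ≤ R := by
      rw [hR, le_div_iff₀ (by linarith), mul_comm]
      exact_mod_cast le_trans (Nat.mul_le_mul_left C (by omega)) hN
    have h3 : ℓ c u ≤ |Cl| * R :=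
      (ℓ_bd c hc u).trans (mul_le_mul (le_abs_self _) h2 (by positivity) (abs_nonneg _))
    have h4 : (|Cl| + 3) * R ≤ κ * N := by
      calc (|Cl| + 3) * R ≤ κ * C * R := by gcongr
        _ = κ * N := by rw [hR]; field_simp
    linarith [hbT c hc N]
  obtain ⟨y, hy, y', hy', H, L, hL, hL1, hH, hg⟩ := dec (a s₀ ^ N * u' * (a s₀ ^ N * u)⁻¹)
  have hlen : l.len (a s₀ ^ N * u' * (a s₀ ^ N * u)⁻¹) + 1 ≤ (2 * B + 3) * N := by
    have h1 := l.len_mul (a s₀ ^ N * u') (a s₀ ^ N * u)⁻¹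
    rw [l.len_inv] at h1
    have h2 := l.len_mul (a s₀ ^ N) u
    have h3 := l.len_mul (a s₀ ^ N) u'
    have h4 := (l.len_pow (a s₀) N).trans (Nat.mul_le_mul_left N (hB _ (Or.inl hb)))
    nlinarith
  have hlen' : Cd * (l.len (a s₀ ^ N * u' * (a s₀ ^ N * u)⁻¹) + 1) ≤ h * N := by
    rw [hh, mul_assoc Cd]
    exact Nat.mul_le_mul_left Cd hlen
  have hH' : ‖H‖ ≤ h * N := hH.trans (by exact_mod_cast hlen')
  set y₀ : G := a s₀ ^ N * u with hy₀
  have hend' : a s₀ ^ N * u' = L.prod * (y * (a H * (y' * y₀))) := by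
    rw [← mul_assoc (a H), ← mul_assoc y, ← mul_assoc y, ← mul_assoc, ← hg, inv_mul_cancel_right]
  let Good : G → Prop := fun g => ∀ c ∈ 𝒞, R ≤ ℓ c g
  have hLc : ∀ c ∈ 𝒞, ∀ L : List G, (∀ t ∈ L, t ∈ T) → ∀ g, ℓ c (L.prod * g) ≤ ℓ c g := by
    intro c hc L hL g
    induction L with
    | nil => simp
    | cons t L ih =>
      rw [List.prod_cons, mul_assoc]
      have := ℓ_mul c hc t (L.prod * g)
      have := ℓ_T c hc t (hL t (by simp))
      have := ih fun s hs => hL s (by simp [hs])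
      linarith
  obtain ⟨w, hw, hw'⟩ := hCp (fun c s => ℓ c (a s * (y' * y₀)))
    (fun c hc s s' => by
      have h1 := ℓ_mul c hc (a (s - s')) (a s' * (y' * y₀))
      rw [← mul_assoc, ← a_add, sub_add_cancel, ℓ_a c hc] at h1
      linarith)
    (fun c hc s s' => by
      have h1 := ℓ_mul c hc (a s * (y' * y₀)) (a s' * (y' * y₀))⁻¹
      rwa [ℓ_inv c hc, mul_inv_rev, mul_assoc, mul_inv_cancel_left, ← a_neg, ← a_add,
        ← sub_eq_add_neg, ℓ_a c hc] at h1)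
    H R hR0
    (fun c hc => by
      rw [a_zero, one_mul]
      exact (hend c hc u hu).trans (hlow c hc _ _ (ℓ_K c hc _ hy')))
    (fun c hc => by
      have h1 := hend c hc u' hu'
      rw [hend'] at h1
      have h2 := hLc c hc L hL (y * (a H * (y' * y₀)))
      have h3 := ℓ_mul c hc y (a H * (y' * y₀))
      linarith [ℓ_K c hc _ hy])
  have hCN : (0 : ℝ) < (C * N : ℕ) := by push_cast; positivity
  have hseg : ∀ Z V : E, ‖V‖ ≤ (C * N : ℕ) →
      (∀ t ∈ Icc (0 : ℝ) 1, Good (a (Z + t • V) * (y' * y₀))) →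
      Chain (Piece l Far S C N) 1 (a Z * (y' * y₀)) (a (Z + V) * (y' * y₀)) := by
    intro Z V hV hG
    have h1 : ∀ j : ℕ, a (((C * N : ℕ) : ℝ)⁻¹ • V) ^ j * (a Z * (y' * y₀)) =
        a (Z + (j / (C * N : ℕ) : ℝ) • V) * (y' * y₀) := fun j => by
      rw [a_pow, ← mul_assoc, ← a_add, smul_smul, add_comm, div_eq_mul_inv]
    have h2 : a (((C * N : ℕ) : ℝ)⁻¹ • V) ∈ S := by
      refine Or.inl ⟨_, ?_, rfl⟩
      rw [mem_closedBall_zero_iff, norm_smul, norm_inv, Real.norm_natCast,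
        inv_mul_le_iff₀ hCN, mul_one]
      exact hV
    have h3 := Chain.single (P := Piece l Far S C N) (N := C * N) (y := a Z * (y' * y₀))
      ⟨(hB _ (Or.inl h2)).trans hBC, Or.inl h2, le_rfl, fun j hj => by
        rw [h1]
        refine far _ _ (hG _ ⟨by positivity, ?_⟩)
        rw [div_le_one hCN]
        exact_mod_cast hj⟩
    rwa [h1, div_self hCN.ne', one_smul] at h3
  have hjump : ∀ x ∈ K, ∀ g, Good g → Chain (Piece l Far S C N) 1 g (x * g) := by
    intro x hx g hG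
    have h3 := Chain.single (P := Piece l Far S C N) (N := 1) (s := x) (y := g)
      ⟨(hB _ (Or.inr hx)).trans hBC, Or.inr le_rfl, by exact_mod_cast hCN, fun j hj => by
        refine far _ _ fun c hc => ?_
        interval_cases j
        · simpa using hG c hc
        · rw [pow_one]
          exact (hG c hc).trans (hlow c hc _ _ (ℓ_K c hc _ hx))⟩
    rwa [pow_one] at h3
  have hw1 : ‖w‖ ≤ (C * N : ℕ) := by
    push_cast
    calc ‖w‖ ≤ Cp * (R + ‖H‖) := hw
      _ ≤ Cp * (N + h * N) := by gcongr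
      _ = Cp * (1 + h) * N := by ring
      _ ≤ C * N := by gcongr; linarith
  have hH1 : ‖H‖ ≤ (C * N : ℕ) := by
    push_cast
    exact hH'.trans (by gcongr)
  have c1 := hjump y' hy' y₀ fun c hc => by linarith [hend c hc u hu]
  have c2 := hseg 0 w hw1 fun t ht c hc => by rw [zero_add]; exact (hw' c hc t ht).1
  have c3 := hseg w H hH1 fun t ht c hc => (hw' c hc t ht).2.1
  have c4 := hseg (w + H) (-w) (by rwa [norm_neg]) fun t ht c hc => by
    have h1 : w + H + t • -w = H + (1 - t) • w := by module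
    rw [h1]
    exact (hw' c hc (1 - t) ⟨by linarith [ht.2], by linarith [ht.1]⟩).2.2
  have hGH : Good (a H * (y' * y₀)) := fun c hc => by simpa using (hw' c hc 0 (by simp)).2.2
  have c5 := hjump y hy _ hGH
  have c6 := chain_word (P := Piece l Far S C N) (Good := Good) (B := C * N) T hT
    (fun t ht g hG c hc => (hG c hc).trans (hlow c hc _ _ (ℓ_T c hc _ ht)))
    (fun t ht M hM g hG => ⟨(hB _ (Or.inl (Or.inr ht))).trans hBC, Or.inl (Or.inr ht), hM,
      fun j _ => far _ _ fun c hc => by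
        induction j with
        | zero => simpa using hG c hc
        | succ j ih =>
          rw [pow_succ', mul_assoc]
          exact (ih (by omega)).trans (hlow c hc _ _ (ℓ_T c hc _ ht))⟩)
    L hL (hL1.trans (hlen'.trans (Nat.mul_le_mul_right N hhC))) (y * (a H * (y' * y₀)))
    fun c hc => (hGH c hc).trans (hlow c hc _ _ (ℓ_K c hc _ hy))
  rw [a_zero, one_mul, zero_add] at c2
  rw [show w + H + -w = H by abel] at c4
  rw [hend']
  exact ((((c1.trans c2).trans c3).trans c4).trans c5).trans c6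

end Pool.Agent.P.MP_d483fb_an.Z
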