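import Pool.Agent.P.MP_d483fb_an.Z.Path.GeoAbs
import Pool.Agent.P.MP_d483fb_an.Z.Lie.Ex2
import Pool.Agent.P.MP_d483fb_an.Z.Lie.Mx2
import Pool.Agent.P.MP_d483fb_an.Z.Cen.Word

/-!
Length functions of the simple factors and linear divergence for groups in standard form.
-/

open scoped Matrix InnerProductSpace RealInnerProductSpace Topology
open NormedSpace Set

set_option linter.unusedSectionVars false
set_option linter.unusedVariables false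

noncomputable section

namespace Pool.Agent.P.MP_d483fb_an.Z

theorem Cen.fr_mul_le {n : ℕ} (X Y : Mat n) : Cen.fr (X * Y) ≤ Cen.fr X * Cen.fr Y := by
  rw [Cen.fr_eq, Cen.fr_eq, Cen.fr_eq, Finset.sum_comm (f := fun i j => Y i j ^ 2),
    Finset.sum_mul_sum]
  refine Finset.sum_le_sum fun i _ => Finset.sum_le_sum fun j _ => ?_
  rw [Matrix.mul_apply]
  exact Finset.sum_mul_sq_le_sq_mul_sq _ _ _

theorem Cen.fr_pos {n : ℕ} {X : Mat n} (h : X ≠ 0) : 0 < Cen.fr X := by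
  refine (Cen.fr_nonneg X).lt_of_ne fun h0 => h ?_
  ext i j
  have := Cen.sq_le_fr X i j
  rw [← h0] at this
  exact pow_eq_zero_iff two_ne_zero |>.1 (le_antisymm this (sq_nonneg _))

namespace Std

variable {G : Type} [Group G] [TopologicalSpace G] [IsTopologicalGroup G] {n k : ℕ}
  (D : Std G n k)

theorem geo_a_add (s t : Euc k) : D.a (s + t) = D.a s * D.a t := by
  unfold a
  rw [map_add]
  refine D.ex_add_of_commute (D.dg_mem s) (D.dg_mem t) ?_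
  rw [Ring.lie_def, dg_apply, dg_apply, Matrix.diagonal_mul_diagonal, Matrix.diagonal_mul_diagonal,
    sub_eq_zero]
  simp only [mul_comm]

theorem geo_a_zero : D.a 0 = 1 := by
  unfold a
  rw [map_zero, D.ex_zero]

theorem geo_a_neg (s : Euc k) : D.a (-s) = (D.a s)⁻¹ :=
  eq_inv_of_mul_eq_one_left (by rw [← geo_a_add, neg_add_cancel, geo_a_zero])

theorem geo_a_cont : Continuous D.a :=
  D.ex_cont.comp_continuous D.dg.continuous_of_finiteDimensional D.dg_mem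

theorem geo_ρ_a (s : Euc k) : D.ρ (D.a s) = Matrix.diagonal fun i => Real.exp ⟪D.lam i, s⟫ := by
  unfold a
  rw [D.ρ_ex _ (D.dg_mem s), dg_apply, Matrix.exp_diagonal, Pi.exp_def]
  simp only [Real.exp_eq_exp_ℝ]

theorem geo_Ad_a (s : Euc k) (Y : Mat n) (i j : Fin n) :
    D.Ad (D.a s) Y i j = Real.exp ⟪D.lam i - D.lam j, s⟫ * Y i j := by
  rw [ExpData.Ad_apply, ← geo_a_neg, geo_ρ_a, geo_ρ_a, Matrix.mul_diagonal, Matrix.diagonal_mul,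
    inner_sub_left, inner_neg_right, sub_eq_add_neg, Real.exp_add]
  ring

theorem geo_fr_K {x y : G} (hx : x ∈ D.K) (hy : y ∈ D.K) (X : Mat n) :
    Cen.fr (D.ρ x * X * D.ρ y) = Cen.fr X :=
  Cen.fr_conj (mul_eq_one_comm.1 hx) hy X

theorem geo_fr_Ad_K {x : G} (hx : x ∈ D.K) (X : Mat n) : Cen.fr (D.Ad x X) = Cen.fr X := by
  rw [ExpData.Ad_apply]
  exact D.geo_fr_K hx (D.K.inv_mem hx) X

theorem geo_len_a (l : Len G) : ∃ B : ℕ, ∀ s, (l.len (D.a s) : ℝ) ≤ B * (‖s‖ + 2) := by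
  obtain ⟨B, hB⟩ := l.bdd ((isCompact_closedBall (0 : Euc k) 1).image D.geo_a_cont)
  refine ⟨B, fun s => ?_⟩
  have a_pow : ∀ (s : Euc k) (j : ℕ), D.a s ^ j = D.a ((j : ℝ) • s) := by
    intro s j
    induction j with
    | zero => simp [geo_a_zero]
    | succ j ih => rw [pow_succ, ih, ← geo_a_add, Nat.cast_succ, add_smul, one_smul]
  set N : ℕ := ⌈‖s‖⌉₊ + 1 with hN
  have hN0 : (0 : ℝ) < N := by positivity
  have h1 : ‖s‖ ≤ N := by push_cast [hN]; linarith [Nat.le_ceil ‖s‖]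
  have h2 : (N : ℝ) ≤ ‖s‖ + 2 := by
    push_cast [hN]; linarith [Nat.ceil_lt_add_one (norm_nonneg s)]
  have h3 : D.a s = D.a ((N : ℝ)⁻¹ • s) ^ N := by
    rw [a_pow, smul_smul, mul_inv_cancel₀ hN0.ne', one_smul]
  have h4 : l.len (D.a ((N : ℝ)⁻¹ • s)) ≤ B := by
    refine hB _ ⟨_, ?_, rfl⟩
    rwa [mem_closedBall_zero_iff, norm_smul, norm_inv, Real.norm_natCast, inv_mul_le_iff₀ hN0,
      mul_one]
  have h5 : l.len (D.a s) ≤ N * B := by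
    rw [h3]
    exact (l.len_pow _ N).trans (Nat.mul_le_mul_left N h4)
  calc (l.len (D.a s) : ℝ) ≤ N * B := by exact_mod_cast h5
    _ ≤ (‖s‖ + 2) * B := by gcongr
    _ = _ := mul_comm _ _

/-- the Cartan projection is at most linear in the word length -/
theorem geo_norm_le (l : Len G) : ∃ C : ℝ, 0 ≤ C ∧ ∀ k₁ ∈ D.K, ∀ k₂ ∈ D.K, ∀ s,
    ‖s‖ ≤ C * (l.len (k₁ * D.a s * k₂) + 1) := by
  let f : G → ℝ := fun g => Real.log (1 + Cen.fr (D.ρ g))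
  have hpos : ∀ g, 0 < 1 + Cen.fr (D.ρ g) := fun g => by linarith [Cen.fr_nonneg (D.ρ g)]
  have hf : ∀ g h, f (g * h) ≤ f g + f h := fun g h => by
    simp only [f]
    rw [← Real.log_mul (hpos g).ne' (hpos h).ne']
    refine Real.log_le_log (hpos _) ?_
    rw [map_mul]
    nlinarith [Cen.fr_mul_le (D.ρ g) (D.ρ h), Cen.fr_nonneg (D.ρ g), Cen.fr_nonneg (D.ρ h)]
  have hc : Continuous f :=
    (continuous_const.add (Cen.continuous_fr.comp D.cont)).log fun g => (hpos g).ne'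
  obtain ⟨C, hC⟩ := ((l.cpt 1).image hc).bddAbove
  have h1 : ∀ u, l.len u ≤ 1 → f u ≤ max C 0 := fun u hu =>
    (hC ⟨u, hu, rfl⟩).trans (le_max_left _ _)
  have h2 := l.le_linear f hf h1 (le_max_right _ _)
  have h3 : ∀ k₁ ∈ D.K, ∀ k₂ ∈ D.K, ∀ s i,
      ⟪D.lam i, s⟫ ≤ max C 0 * (l.len (k₁ * D.a s * k₂) + 1) := by
    intro k₁ hk₁ k₂ hk₂ s i
    have h4 := h2 (k₁ * D.a s * k₂)
    simp only [f] at h4
    rw [map_mul, map_mul, D.geo_fr_K hk₁ hk₂] at h4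
    have h5 := Cen.sq_le_fr (D.ρ (D.a s)) i i
    rw [geo_ρ_a, Matrix.diagonal_apply_eq, ← geo_ρ_a] at h5
    refine le_trans ?_ h4
    rw [Real.le_log_iff_exp_le (hpos _)]
    nlinarith [sq_nonneg (Real.exp ⟪D.lam i, s⟫ - 1), Real.exp_pos ⟪D.lam i, s⟫]
  refine ⟨n * max C 0, by positivity, fun k₁ hk₁ k₂ hk₂ s => ?_⟩
  set B : ℝ := max C 0 * (l.len (k₁ * D.a s * k₂) + 1) with hB
  have hB0 : 0 ≤ B := by positivity
  have h4 : ∀ i, ⟪D.lam i, s⟫ * ⟪D.lam i, s⟫ ≤ B ^ 2 := fun i => by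
    have h5 := h3 k₁ hk₁ k₂ hk₂ s i
    have h6 := h3 _ (D.K.inv_mem hk₂) _ (D.K.inv_mem hk₁) (-s) i
    rw [geo_a_neg, ← mul_inv_rev, ← mul_inv_rev, l.len_inv, ← mul_assoc, inner_neg_right] at h6
    rw [← sq]
    exact sq_le_sq' (by linarith) h5
  have h5 : ‖s‖ ^ 2 ≤ (n * B) ^ 2 := by
    rw [← real_inner_self_eq_norm_sq, ← D.frame s s]
    calc ∑ i, ⟪D.lam i, s⟫ * ⟪D.lam i, s⟫ ≤ ∑ _i : Fin n, B ^ 2 := Finset.sum_le_sum fun i _ => h4 i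
      _ = n * B ^ 2 := by simp
      _ ≤ n ^ 2 * B ^ 2 := by
          gcongr
          exact_mod_cast Nat.le_self_pow two_ne_zero n
      _ = _ := by ring
  rw [mul_assoc]
  exact (pow_le_pow_iff_left₀ (norm_nonneg _) (by positivity) two_ne_zero).1 h5

open Classical in
/-- the roots of the simple factor of `γ` -/
def cl (γ : Euc k) : Finset (Euc k) := D.roots.filter fun β => D.Conn γ β

theorem mem_cl {γ β : Euc k} : β ∈ D.cl γ ↔ β ∈ D.roots ∧ D.Conn γ β := by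
  classical
  unfold cl
  exact Finset.mem_filter

theorem geo_ne_zero {β : Euc k} (h : β ∈ D.roots) : β ≠ 0 ∧ D.gr β ≠ ⊥ := by
  classical
  unfold roots at h
  exact (Finset.mem_filter.1 h).2

theorem geo_conn_symm {β γ : Euc k} (h : D.Conn β γ) : D.Conn γ β := by
  induction h with
  | refl => exact .refl
  | tail _ h ih => exact .head ⟨h.2.1, h.1, by rw [real_inner_comm]; exact h.2.2⟩ ih

theorem cl_eq {β γ : Euc k} (h : D.Conn β γ) : D.cl β = D.cl γ := by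
  ext x
  simp only [mem_cl]
  exact and_congr_right fun _ => ⟨fun h1 => (D.geo_conn_symm h).trans h1, fun h1 => h.trans h1⟩

section ideal

variable [ConnectedSpace G] {D} {c : Finset (Euc k)} {J : Submodule ℝ (Mat n)}

theorem geo_bd (hJ : IsIdl D.g J) (hw : J ≤ D.wtS {β | β = 0 ∨ β ∈ c}) {k₁ k₂ : G}
    (h₁ : k₁ ∈ D.K) (h₂ : k₂ ∈ D.K) (s : Euc k) {Y : Mat n} (hY : Y ∈ J) :
    Cen.fr (D.Ad (k₁ * D.a s * k₂) Y) ≤ Real.exp (pc c s) ^ 2 * Cen.fr Y := by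
  rw [D.Ad_mul, D.Ad_mul, D.geo_fr_Ad_K h₁, ← D.geo_fr_Ad_K h₂ Y]
  have h := hw (D.Ad_mem_of_br hJ.2 k₂ hY)
  generalize D.Ad k₂ Y = Z at h
  rw [Cen.fr_eq, Cen.fr_eq, Finset.mul_sum]
  refine Finset.sum_le_sum fun i _ => ?_
  rw [Finset.mul_sum]
  refine Finset.sum_le_sum fun j _ => ?_
  rw [geo_Ad_a, mul_pow]
  by_cases h0 : Z i j = 0
  · simp [h0]
  gcongr
  rcases h i j h0 with h1 | h1
  · rw [h1, inner_zero_left]
    exact apply_nonneg _ _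
  · exact (le_abs_self _).trans (le_pc h1 s)

theorem geo_le (hJ : IsIdl D.g J) (hc : c.Nonempty) (hneg : ∀ β ∈ c, -β ∈ c)
    (hr : ∀ β ∈ c, β ∈ D.roots ∧ D.gr β ≤ J) {k₁ k₂ : G} (h₁ : k₁ ∈ D.K) (h₂ : k₂ ∈ D.K)
    {s : Euc k} {t : ℝ}
    (h : ∀ Y ∈ J, Cen.fr (D.Ad (k₁ * D.a s * k₂) Y) ≤ Real.exp t ^ 2 * Cen.fr Y) : pc c s ≤ t := by
  obtain ⟨β, hβ, e⟩ := exists_pc_pos hc hneg s
  obtain ⟨X, hX, hX0⟩ := (Submodule.ne_bot_iff _).1 (D.geo_ne_zero (hr β hβ).1).2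
  have h1 := h _ (D.Ad_mem_of_br hJ.2 k₂⁻¹ ((hr β hβ).2 hX))
  rw [D.Ad_mul, D.Ad_mul, D.Ad_Ad_inv, D.geo_fr_Ad_K h₁, D.geo_fr_Ad_K (D.K.inv_mem h₂)] at h1
  have h2 : Cen.fr (D.Ad (D.a s) X) = Real.exp ⟪β, s⟫ ^ 2 * Cen.fr X := by
    rw [Cen.fr_eq, Cen.fr_eq, Finset.mul_sum]
    refine Finset.sum_congr rfl fun i _ => ?_
    rw [Finset.mul_sum]
    refine Finset.sum_congr rfl fun j _ => ?_
    rw [geo_Ad_a, mul_pow]
    by_cases h0 : X i j = 0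
    · simp [h0]
    · rw [show D.lam i - D.lam j = β from hX.2 i j h0]
  rw [h2, mul_le_mul_iff_left₀ (Cen.fr_pos hX0),
    pow_le_pow_iff_left₀ (Real.exp_pos _).le (Real.exp_pos _).le two_ne_zero,
    Real.exp_le_exp] at h1
  rwa [e]

end ideal

/-- linear divergence from the structure theory -/
theorem geo_of [ConnectedSpace G] [LocallyCompactSpace G] (l : Len G)
    (kak : ∀ g, ∃ k₁ ∈ D.K, ∃ k₂ ∈ D.K, ∃ s, g = k₁ * D.a s * k₂)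
    (neg : ∀ β ∈ D.roots, -β ∈ D.roots)
    (two : ∀ γ ∈ D.roots, ∃ β ∈ D.roots, D.Conn γ β ∧ ∀ c : ℝ, β ≠ c • γ)
    (idl : ∀ γ ∈ D.roots, ∃ J : Submodule ℝ (Mat n), IsIdl D.g J ∧
      (∀ β ∈ D.roots, D.Conn γ β → D.gr β ≤ J) ∧
      J ≤ D.wtS {β | β = 0 ∨ (β ∈ D.roots ∧ D.Conn γ β)}) :
    ∃ S : Set G, IsCompact S ∧ (∀ s ∈ S, s ∈ range D.a ∨ D.ρ s = 1) ∧
      Nonempty (Geo l D.Far S) := by
  classical
  obtain ⟨K, hK, -, hKK, hK1⟩ := D.cen_exists_K1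
  obtain ⟨-, T, CT, hT, hT1⟩ := (D.cenPolar_of_kak kak fun x X hX => D.conj_ex x hX).cen1 l
  choose k₁ hk₁ k₂ hk₂ σ hσ using kak
  let 𝒞 : Finset (Finset (Euc k)) := D.roots.image D.cl
  have h𝒞 : ∀ c ∈ 𝒞, ∃ γ ∈ D.roots, D.cl γ = c := fun c hc => Finset.mem_image.1 hc
  have hself : ∀ γ ∈ D.roots, γ ∈ D.cl γ := fun γ h => D.mem_cl.2 ⟨h, .refl⟩
  have hne : ∀ c ∈ 𝒞, c.Nonempty := fun c hc => by
    obtain ⟨γ, hγ, rfl⟩ := h𝒞 c hc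
    exact ⟨γ, hself γ hγ⟩
  have hneg : ∀ c ∈ 𝒞, ∀ β ∈ c, -β ∈ c := fun c hc β hβ => by
    obtain ⟨γ, hγ, rfl⟩ := h𝒞 c hc
    obtain ⟨h1, h2⟩ := D.mem_cl.1 hβ
    refine D.mem_cl.2 ⟨neg β h1, h2.tail ⟨h1, neg β h1, ?_⟩⟩
    rw [inner_neg_right, neg_ne_zero]
    exact inner_self_ne_zero.2 (D.geo_ne_zero h1).1
  have hsub : ∀ c ∈ 𝒞, ∀ g h, ∀ x ∈ D.K, ∀ y ∈ D.K, ∀ s, g * h = x * D.a s * y →
      ∀ x₁ ∈ D.K, ∀ y₁ ∈ D.K, ∀ s₁, g = x₁ * D.a s₁ * y₁ →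
      ∀ x₂ ∈ D.K, ∀ y₂ ∈ D.K, ∀ s₂, h = x₂ * D.a s₂ * y₂ → pc c s ≤ pc c s₁ + pc c s₂ := by
    intro c hc g h x hx y hy s e x₁ hx₁ y₁ hy₁ s₁ e₁ x₂ hx₂ y₂ hy₂ s₂ e₂
    obtain ⟨γ, hγ, rfl⟩ := h𝒞 c hc
    obtain ⟨J, hJ, hJ1, hJ2⟩ := idl γ hγ
    have hw : J ≤ D.wtS {β | β = 0 ∨ β ∈ D.cl γ} := by simpa only [D.mem_cl] using hJ2
    refine geo_le hJ (hne _ hc) (hneg _ hc)
      (fun β hβ => ⟨(D.mem_cl.1 hβ).1, hJ1 β (D.mem_cl.1 hβ).1 (D.mem_cl.1 hβ).2⟩) hx hy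
      fun Y hY => ?_
    rw [← e, D.Ad_mul, Real.exp_add, mul_pow, mul_assoc]
    have h1 := geo_bd hJ hw hx₁ hy₁ s₁ (D.Ad_mem_of_br hJ.2 h hY)
    have h2 := geo_bd hJ hw hx₂ hy₂ s₂ hY
    rw [← e₁] at h1
    rw [← e₂] at h2
    exact h1.trans (mul_le_mul_of_nonneg_left h2 (sq_nonneg _))
  have heq : ∀ c ∈ 𝒞, ∀ x ∈ D.K, ∀ y ∈ D.K, ∀ s, pc c (σ (x * D.a s * y)) = pc c s := by
    intro c hc x hx y hy s
    have h0 : (1 : G) = 1 * D.a 0 * 1 := by simp [geo_a_zero]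
    have h1 := hsub c hc (x * D.a s * y) 1 _ (hk₁ _) _ (hk₂ _) _ (by rw [mul_one]; exact hσ _)
      x hx y hy s rfl 1 D.K.one_mem 1 D.K.one_mem 0 h0
    have h2 := hsub c hc (x * D.a s * y) 1 x hx y hy s (mul_one _) _ (hk₁ _) _ (hk₂ _) _ (hσ _)
      1 D.K.one_mem 1 D.K.one_mem 0 h0
    rw [map_zero, add_zero] at h1 h2
    exact le_antisymm h1 h2
  have hK0 : ∀ c ∈ 𝒞, ∀ y ∈ D.K, pc c (σ y) ≤ 0 := fun c hc y hy => by
    have h := heq c hc y hy 1 D.K.one_mem 0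
    rw [geo_a_zero, mul_one, mul_one, map_zero] at h
    exact h.le
  obtain ⟨Cn, hCn0, hCn⟩ := D.geo_norm_le l
  have hσn : ∀ g, ‖σ g‖ ≤ Cn * (l.len g + 1) := fun g => by
    have h := hCn _ (hk₁ g) _ (hk₂ g) (σ g)
    rwa [← hσ] at h
  obtain ⟨Ba, hBa⟩ := D.geo_len_a l
  obtain ⟨BK, hBK⟩ := l.bdd hK
  obtain ⟨s₀, -, hs₀, hs₁⟩ := exists_generic ⊤ D.roots
    (fun β hβ => ⟨β, trivial, inner_self_ne_zero.2 (D.geo_ne_zero hβ).1⟩) (s₀ := 0) trivial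
    (Metric.closedBall_mem_nhds 0 one_pos)
  obtain ⟨C1, hC1⟩ := exists_nat_ge (1 + 2 * BK + Ba * (Cn + 2) + Cn)
  refine ⟨_, ((isCompact_closedBall 0 1).image D.geo_a_cont).union T.finite_toSet.isCompact, ?_,
    geo_abs l D.Far D.a D.geo_a_add D.geo_a_cont 𝒞 hneg ?_ ?_ (fun c g => pc c (σ g))
      (fun c hc g h => hsub c hc g h _ (hk₁ _) _ (hk₂ _) _ (hσ _) _ (hk₁ _) _ (hk₂ _) _ (hσ _)
        _ (hk₁ _) _ (hk₂ _) _ (hσ _)) ?_ ?_ (Cl := (∑ β ∈ D.roots, ‖β‖) * Cn) ?_ ?_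
      (s₀ := s₀) (by simpa using hs₀) ?_ hK T (fun t ht => D.cen_ker_central (hT t ht))
      (fun c hc y hy => hK0 c hc y (hKK hy))
      (fun c hc y hy => hK0 c hc y (D.cen_ker_le_K (hT y hy))) (Cd := (CT + 1) * C1) ?_⟩
  · rintro s (⟨t, -, rfl⟩ | hs)
    · exact Or.inl ⟨t, rfl⟩
    · exact Or.inr (hT s hs)
  · intro c hc
    obtain ⟨γ, hγ, rfl⟩ := h𝒞 c hc
    obtain ⟨β, hβ, h1, h2⟩ := two γ hγ
    exact ⟨γ, hself γ hγ, β, D.mem_cl.2 ⟨hβ, h1⟩, (D.geo_ne_zero hγ).1, h2⟩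
  · intro c hc c' hc' hne β hβ β' hβ'
    obtain ⟨γ, hγ, rfl⟩ := h𝒞 c hc
    obtain ⟨γ', hγ', rfl⟩ := h𝒞 c' hc'
    by_contra h
    rw [D.mem_cl] at hβ hβ'
    exact hne (D.cl_eq ((hβ.2.tail ⟨hβ.1, hβ'.1, h⟩).trans (D.geo_conn_symm hβ'.2)))
  · intro c hc g
    have h := heq c hc _ (D.K.inv_mem (hk₂ g)) _ (D.K.inv_mem (hk₁ g)) (-σ g)
    rwa [geo_a_neg, ← mul_inv_rev, ← mul_inv_rev, ← mul_assoc, ← hσ, map_neg_eq_map] at h
  · intro c hc s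
    simpa using heq c hc 1 D.K.one_mem 1 D.K.one_mem s
  · intro c hc g
    obtain ⟨γ, hγ, rfl⟩ := h𝒞 c hc
    rw [mul_assoc]
    refine (pc_le_norm _ _).trans (mul_le_mul ?_ (hσn g) (norm_nonneg _) (by positivity))
    exact Finset.sum_le_sum_of_subset_of_nonneg (fun β hβ => (D.mem_cl.1 hβ).1)
      fun _ _ _ => norm_nonneg _
  · intro g t h
    refine ⟨_, hk₁ g, _, hk₂ g, σ g, hσ g, fun γ hγ => ?_⟩
    have hc : D.cl γ ∈ 𝒞 := Finset.mem_image_of_mem _ hγ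
    obtain ⟨β, hβ, e⟩ := exists_pc (hne _ hc) (σ g)
    exact ⟨β, (D.mem_cl.1 hβ).1, (D.mem_cl.1 hβ).2, e ▸ h _ hc⟩
  · intro c hc
    obtain ⟨γ, hγ, rfl⟩ := h𝒞 c hc
    exact (abs_pos.2 (hs₁ γ hγ)).trans_le (le_pc (hself γ hγ) s₀)
  · intro g
    obtain ⟨z₁, hz₁, y₁, hy₁, e₁⟩ := hK1 _ (hk₁ g)
    obtain ⟨z₂, hz₂, y₂, hy₂, e₂⟩ := hK1 _ (hk₂ g)
    obtain ⟨L, hL, hL1, hL2⟩ := hT1 (z₁ * z₂) (by rw [map_mul, hz₁, hz₂, mul_one])
    have e : g = z₁ * z₂ * (y₁ * D.a (σ g) * y₂) := by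
      conv_lhs => rw [hσ g, e₁, e₂]
      rw [← mul_assoc _ z₂, ← D.cen_ker_central hz₂, ← mul_assoc z₂, ← mul_assoc z₂,
        D.cen_ker_central hz₂ z₁]
      simp only [mul_assoc]
    have h0 : (0 : ℝ) ≤ l.len g := Nat.cast_nonneg _
    have h1 : l.len (z₁ * z₂) + 1 ≤ C1 * (l.len g + 1) := by
      have h2 := l.len_mul g (y₁ * D.a (σ g) * y₂)⁻¹
      rw [l.len_inv, ← eq_mul_inv_of_mul_eq e.symm] at h2
      have h3 := l.len_mul3 y₁ (D.a (σ g)) y₂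
      have h4 : (l.len (z₁ * z₂) : ℝ) ≤ l.len g + 2 * BK + l.len (D.a (σ g)) := by
        have := hBK _ hy₁
        have := hBK _ hy₂
        exact_mod_cast (by omega : l.len (z₁ * z₂) ≤ l.len g + 2 * BK + l.len (D.a (σ g)))
      have h5 : (l.len (D.a (σ g)) : ℝ) ≤ Ba * (Cn + 2) * (l.len g + 1) := by
        refine (hBa _).trans ?_
        rw [mul_assoc]
        gcongr
        nlinarith [hσn g]
      have h6 : (l.len (z₁ * z₂) : ℝ) + 1 ≤ C1 * (l.len g + 1) := by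
        have : (0 : ℝ) ≤ BK := Nat.cast_nonneg _
        calc (l.len (z₁ * z₂) : ℝ) + 1
            ≤ (1 + 2 * BK + Ba * (Cn + 2) + Cn) * (l.len g + 1) := by nlinarith
          _ ≤ _ := by gcongr
      exact_mod_cast h6
    refine ⟨y₁, hy₁, y₂, hy₂, σ g, L, hL, hL1.trans ?_, (hσn g).trans ?_, hL2 ▸ e⟩
    · rw [mul_assoc]
      exact Nat.mul_le_mul (by omega) h1
    · have : (0 : ℝ) ≤ BK := Nat.cast_nonneg _
      have : (0 : ℝ) ≤ Ba * (Cn + 2) := by positivity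
      have : (0 : ℝ) ≤ CT * C1 := by positivity
      push_cast
      gcongr
      linarith

end Std

end Pool.Agent.P.MP_d483fb_an.Z
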