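import Pool.Agent.P.MP_d483fb_an.Z.Path.Defs

/-!
Word length and height: basic properties.
-/

open scoped Topology Pointwise ENNReal
open MeasureTheory Filter Set

set_option linter.unusedSectionVars false

namespace Pool.Agent.P.MP_d483fb_an.Z

variable {G : Type} [Group G] [TopologicalSpace G]

theorem exists_len [IsTopologicalGroup G] [LocallyCompactSpace G] [ConnectedSpace G] :
    Nonempty (Len G) := by
  classical
  obtain ⟨K, hK, hK1⟩ := exists_compact_mem_nhds (1 : G)
  set Q : Set G := K ∪ K⁻¹ with hQ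
  have hQc : IsCompact Q := hK.union hK.inv
  have hQn : Q ∈ 𝓝 (1 : G) := mem_of_superset hK1 subset_union_left
  have hQ1 : (1 : G) ∈ Q := mem_of_mem_nhds hQn
  have hQi : Q⁻¹ = Q := by rw [hQ, union_inv, inv_inv, union_comm]
  have hpi : ∀ n : ℕ, ∀ g ∈ Q ^ n, g⁻¹ ∈ Q ^ n := by
    intro n g hg
    have : g⁻¹ ∈ (Q ^ n)⁻¹ := Set.inv_mem_inv.2 hg
    rwa [← inv_pow, hQi] at this
  have hmono : ∀ m n : ℕ, m ≤ n → Q ^ m ⊆ Q ^ n := fun m n h => Set.pow_subset_pow_right hQ1 h
  let H : Subgroup G :=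
    { carrier := {g | ∃ n : ℕ, g ∈ Q ^ n}
      one_mem' := ⟨0, by simp⟩
      mul_mem' := by
        rintro a b ⟨m, ha⟩ ⟨n, hb⟩
        exact ⟨m + n, by rw [pow_add]; exact Set.mul_mem_mul ha hb⟩
      inv_mem' := by
        rintro a ⟨m, ha⟩
        exact ⟨m, hpi m a ha⟩ }
  have hHo : IsOpen (H : Set G) :=
    H.isOpen_of_mem_nhds (g := 1) (mem_of_superset hQn fun g hg => ⟨1, by simpa using hg⟩)
  have hH : ∀ g : G, ∃ n : ℕ, g ∈ Q ^ n := by
    have : (H : Set G) = univ :=
      IsClopen.eq_univ ⟨H.isClosed_of_isOpen hHo, hHo⟩ ⟨1, H.one_mem⟩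
    intro g
    have hg : g ∈ (H : Set G) := this ▸ mem_univ g
    exact hg
  have hle : ∀ g n, Nat.find (hH g) ≤ n ↔ g ∈ Q ^ n := fun g n =>
    ⟨fun h => hmono _ _ h (Nat.find_spec (hH g)), fun h => Nat.find_min' _ h⟩
  have hcp : ∀ n : ℕ, IsCompact (Q ^ n) := by
    intro n
    induction n with
    | zero => rw [pow_zero]; exact isCompact_singleton
    | succ n ih => rw [pow_succ]; exact ih.mul hQc
  refine ⟨⟨fun g => Nat.find (hH g), ?_, ?_, ?_, ?_, ?_, ?_⟩⟩
  · exact Nat.le_zero.1 ((hle 1 0).2 (by simp))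
  · intro g
    refine le_antisymm ((hle _ _).2 (hpi _ _ (Nat.find_spec (hH g)))) ((hle _ _).2 ?_)
    simpa using hpi _ _ (Nat.find_spec (hH g⁻¹))
  · intro g h
    refine (hle _ _).2 ?_
    rw [pow_add]
    exact Set.mul_mem_mul (Nat.find_spec (hH g)) (Nat.find_spec (hH h))
  · intro g n hg
    rw [hle, pow_succ'] at hg
    obtain ⟨u, hu, g', hg', rfl⟩ := hg
    exact ⟨u, g', (hle _ _).2 (by simpa using hu), (hle _ _).2 hg', rfl⟩
  · intro n
    have : {g | Nat.find (hH g) ≤ n} = Q ^ n := Set.ext fun g => hle g n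
    rw [this]
    exact hcp n
  · have : {g | Nat.find (hH g) ≤ 1} = Q := Set.ext fun g => by
      rw [mem_ofPred_eq, hle, pow_one]
    rw [this]
    exact hQn

namespace Len

variable (l : Len G)

theorem le_linear (f : G → ℝ) (hf : ∀ g h, f (g * h) ≤ f g + f h) {C : ℝ}
    (h1 : ∀ u, l.len u ≤ 1 → f u ≤ C) (_hC : 0 ≤ C) (g : G) : f g ≤ C * (l.len g + 1) := by
  have : ∀ n : ℕ, ∀ g, l.len g ≤ n → f g ≤ C * (n + 1) := by
    intro n
    induction n with
    | zero => intro g hg; simpa using h1 g (by omega)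
    | succ n ih =>
      intro g hg
      obtain ⟨u, g', hu, hg', rfl⟩ := l.step g n hg
      have := hf u g'
      have := h1 u hu
      have := ih g' hg'
      push_cast
      linarith
  exact this _ g le_rfl

theorem len_pow (g : G) (n : ℕ) : l.len (g ^ n) ≤ n * l.len g := by
  induction n with
  | zero => simp [l.len_one]
  | succ n ih =>
    rw [pow_succ]
    have := l.len_mul (g ^ n) g
    nlinarith

theorem len_mul3 (a b c : G) : l.len (a * b * c) ≤ l.len a + l.len b + l.len c := by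
  have := l.len_mul (a * b) c
  have := l.len_mul a b
  omega

theorem isClosed_le [T2Space G] (n : ℕ) : IsClosed {g | l.len g ≤ n} := (l.cpt n).isClosed

theorem measurable_len [T2Space G] [MeasurableSpace G] [OpensMeasurableSpace G] :
    Measurable l.len := by
  refine measurable_of_Iic fun n => ?_
  exact (l.isClosed_le n).measurableSet

/-- The length is bounded on compact sets. -/
theorem bdd [IsTopologicalGroup G] {K : Set G} (hK : IsCompact K) :
    ∃ n, ∀ g ∈ K, l.len g ≤ n := by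
  refine hK.induction_on (p := fun K => ∃ n, ∀ g ∈ K, l.len g ≤ n) ⟨0, by simp⟩ ?_ ?_ ?_
  · rintro s t hst ⟨n, hn⟩
    exact ⟨n, fun g hg => hn g (hst hg)⟩
  · rintro s t ⟨n, hn⟩ ⟨m, hm⟩
    refine ⟨max n m, ?_⟩
    rintro g (hg | hg)
    · exact (hn g hg).trans (le_max_left _ _)
    · exact (hm g hg).trans (le_max_right _ _)
  · intro x _
    have hc : ContinuousAt (fun g : G => g * x⁻¹) x := by fun_prop
    have : {g : G | l.len (g * x⁻¹) ≤ 1} ∈ 𝓝 x := by
      have h := hc.preimage_mem_nhds (t := {g | l.len g ≤ 1}) (by simpa using l.nhds)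
      exact h
    refine ⟨_, mem_nhdsWithin_of_mem_nhds this, 1 + l.len x, fun g hg => ?_⟩
    have h := l.len_mul (g * x⁻¹) x
    rw [inv_mul_cancel_right] at h
    have : l.len (g * x⁻¹) ≤ 1 := hg
    omega

end Len

theorem exists_base [IsTopologicalGroup G] [T2Space G] (l : Len G) (Γ : Subgroup G)
    [DiscreteTopology Γ] : ∃ B : Base l (G ⧸ Γ), B.o = ((1 : G) : G ⧸ Γ) := by
  have h1 : ∀ g : G, g • ((1 : G) : G ⧸ Γ) = (g : G ⧸ Γ) := fun g => by
    rw [MulAction.Quotient.smul_mk, smul_eq_mul, mul_one]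
  refine ⟨⟨((1 : G) : G ⧸ Γ), ?_, ?_, ?_⟩, rfl⟩
  · intro x
    obtain ⟨g, rfl⟩ := QuotientGroup.mk_surjective x
    exact ⟨g, h1 g⟩
  · simp only [h1]
    exact QuotientGroup.isOpenMap_coe
  · intro n
    have hcl : IsClosed (Γ : Set G) := Subgroup.isClosed_of_discrete
    have hd : IsDiscrete (Γ : Set G) := isDiscrete_iff_discreteTopology.2 inferInstance
    have hf : ({g | l.len g ≤ n} ∩ (Γ : Set G)).Finite :=
      ((l.cpt n).inter_right hcl).finite (hd.mono inter_subset_right)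
    refine hf.subset ?_
    rintro γ ⟨h, hl⟩
    refine ⟨hl, ?_⟩
    rw [h1, QuotientGroup.eq] at h
    simpa using h

namespace Base

variable {l : Len G} {X : Type} [TopologicalSpace X] [MulAction G X] (B : Base l X)

theorem ht_le_iff {x : X} {n : ℕ} : B.ht x ≤ n ↔ ∃ g : G, l.len g ≤ n ∧ g • B.o = x := by
  classical
  unfold ht
  constructor
  · intro h
    obtain ⟨g, hg, hx⟩ := Nat.find_spec (p := fun n => ∃ g : G, l.len g ≤ n ∧ g • B.o = x)
      (by obtain ⟨g, hg⟩ := B.trans x; exact ⟨_, g, le_rfl, hg⟩)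
    exact ⟨g, hg.trans h, hx⟩
  · intro h
    exact Nat.find_min' _ h

theorem ht_smul_o (g : G) : B.ht (g • B.o) ≤ l.len g := B.ht_le_iff.2 ⟨g, le_rfl, rfl⟩

theorem ht_o : B.ht B.o = 0 := by
  have := B.ht_smul_o 1
  rw [one_smul, l.len_one] at this
  omega

theorem ht_smul (g : G) (x : X) : B.ht (g • x) ≤ l.len g + B.ht x := by
  obtain ⟨h, hl, rfl⟩ := B.ht_le_iff.1 (le_refl (B.ht x))
  rw [← mul_smul]
  have := B.ht_smul_o (g * h)
  have := l.len_mul g h
  omega

theorem ht_le_smul (g : G) (x : X) : B.ht x ≤ l.len g + B.ht (g • x) := by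
  have := B.ht_smul g⁻¹ (g • x)
  rwa [inv_smul_smul, l.len_inv] at this

theorem isCompact_le [ContinuousSMul G X] (n : ℕ) : IsCompact {x | B.ht x ≤ n} := by
  have : {x | B.ht x ≤ n} = (fun g : G => g • B.o) '' {g | l.len g ≤ n} := by
    ext x
    simp only [mem_ofPred_eq, B.ht_le_iff, mem_image]
  rw [this]
  exact (l.cpt n).image (by fun_prop)

theorem measurable_ht [ContinuousSMul G X] [T2Space X] [MeasurableSpace X]
    [OpensMeasurableSpace X] : Measurable B.ht := by
  refine measurable_of_Iic fun n => ?_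
  exact (B.isCompact_le n).isClosed.measurableSet

/-- A nearest element of the stabiliser. -/
theorem exists_near (g : G) : ∃ γ : G, γ • B.o = B.o ∧ l.len (g * γ⁻¹) ≤ B.ht (g • B.o) := by
  obtain ⟨h, hl, hh⟩ := B.ht_le_iff.1 (le_refl (B.ht (g • B.o)))
  refine ⟨h⁻¹ * g, ?_, ?_⟩
  · rw [mul_smul, ← hh, inv_smul_smul]
  · simpa using hl

end Base

end Pool.Agent.P.MP_d483fb_an.Z
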