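import Pool.Agent.P.MP_d483fb_an.Z.Path.Tail

/-!
The random path from the identity to an element of the lattice, cut into pieces.
-/

open scoped Topology Pointwise ENNReal
open MeasureTheory Filter Set

set_option linter.unusedSectionVars false

namespace Pool.Agent.P.MP_d483fb_an.Z

variable {G : Type} [Group G] [TopologicalSpace G] [IsTopologicalGroup G] [T2Space G]
  [LocallyCompactSpace G] [SecondCountableTopology G] [MeasurableSpace G] [BorelSpace G]
  {X : Type} [TopologicalSpace X] [T2Space X] [SecondCountableTopology X] [MeasurableSpace X]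
  [BorelSpace X] [MulAction G X] [ContinuousSMul G X]
  {μ : Measure X} [IsProbabilityMeasure μ] [SMulInvariantMeasure G X μ]
  {l : Len G} {Far : G → ℝ → Prop} {S : Set G}

theorem Len.integrable_comp {Ω : Type} [MeasurableSpace Ω] {σ : Measure Ω} [IsFiniteMeasure σ]
    {c : G → ℝ} (hc : Measurable c) (hb : ∀ R, ∃ M, ∀ g, l.len g ≤ R → |c g| ≤ M)
    {φ : Ω → G} (hφ : Measurable φ) {R : ℕ} (hR : ∀ᵐ w ∂σ, l.len (φ w) ≤ R) :
    Integrable (fun w => c (φ w)) σ := by
  obtain ⟨M, hM⟩ := hb R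
  refine Integrable.of_bound (hc.comp hφ).aestronglyMeasurable M ?_
  filter_upwards [hR] with w hw
  exact hM _ hw

theorem Chain.int {P : G → ℕ → G → Prop} {σ : Measure G} [IsProbabilityMeasure σ]
    (hσ : ∀ᵐ δ ∂σ, l.len δ ≤ 1) {Ψ : G → ℝ} {cost : G → ℕ → G → ℝ} {K R : ℕ} {Bd : ℝ}
    (hBd : 0 ≤ Bd) (hm : ∀ s N, Measurable (cost s N))
    (hb : ∀ s N R, ∃ M, ∀ g, l.len g ≤ R → |cost s N g| ≤ M)
    (hK : ∀ s N y, P s N y → l.len (s ^ N) ≤ K)
    (hΨ : ∀ s N y g, P s N y → Ψ (s ^ N * g) ≤ Ψ g + cost s N g)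
    (hI : ∀ s N y, P s N y → l.len y ≤ R → ∫ δ, cost s N (y * δ) ∂σ ≤ Bd)
    {m : ℕ} {y y' : G} (h : Chain P m y y') (hy : l.len y + m * K ≤ R) :
    ∃ c : G → ℝ, Integrable c σ ∧ ∫ δ, c δ ∂σ ≤ m * Bd ∧ ∀ δ, Ψ (y' * δ) ≤ Ψ (y * δ) + c δ := by
  induction h with
  | nil m y => exact ⟨fun _ => 0, integrable_zero _ _ _, by simp; positivity, fun δ => by simp⟩
  | @cons m N s y y' hP _ ih =>
    have h1 := l.len_mul (s ^ N) y
    have h2 := hK s N y hP
    obtain ⟨c, hc, hci, hcΨ⟩ := ih (by nlinarith)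
    have hi : Integrable (fun δ => cost s N (y * δ)) σ := by
      refine l.integrable_comp (hm s N) (hb s N) (by fun_prop) (R := l.len y + 1) ?_
      filter_upwards [hσ] with δ hδ
      have := l.len_mul y δ
      omega
    refine ⟨fun δ => cost s N (y * δ) + c δ, hi.add hc, ?_, fun δ => ?_⟩
    · rw [integral_add hi hc]
      have := hI s N y hP (by omega)
      push_cast
      linarith
    · have := hcΨ δ
      have := hΨ s N y (y * δ) hP
      rw [← mul_assoc] at this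
      linarith

namespace Base

variable (B : Base l X)

/-- A random piece of an orbit all of whose points are well distributed. -/
structure Nice (μ : Measure X) (S : Set G) (C : ℕ) (C₀ : ℝ≥0∞) (E : Set G → ℝ) (n : ℕ)
    (τ : Measure G) (s : G) (N : ℕ) : Prop where
  prob : IsProbabilityMeasure τ
  len_s : l.len s ≤ C
  mem : s ∈ S ∨ N ≤ 1
  le : N ≤ C * (n + 1)
  supp : ∀ᵐ g ∂τ, l.len g ≤ C * (n + 1)
  good : ∀ j ≤ N, ∀ W : Set G, IsOpen W → 1 ∈ W → ∀ U : Set X, MeasurableSet U →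
    τ {g | (s ^ j * g) • B.o ∈ U} ≤ C₀ * μ (W • U) + ENNReal.ofReal (E W * Real.exp (-n))

theorem leg {τ σ : Measure G} [IsProbabilityMeasure τ] [IsProbabilityMeasure σ] {C₀ : ℝ≥0∞}
    (hτ : ∀ᵐ v ∂τ, l.len v ≤ 1)
    (hbd : ∀ g w : G, l.len w ≤ 1 → ∀ U : Set X, MeasurableSet U →
      τ {v | (g * v * w) • B.o ∈ U} ≤ C₀ * μ U)
    (h γ : G) (hγ : γ • B.o = B.o) (hσ : ∀ᵐ δ ∂σ, l.len δ ≤ 1)
    (hσ' : ∀ᵐ δ ∂σ, l.len (γ * δ * γ⁻¹) ≤ 1) {C n N : ℕ} {E : Set G → ℝ} {s : G}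
    (hs : l.len s ≤ C) (hS : s ∈ S) (hN : N ≤ C * (n + 1))
    (hl : l.len h + l.len γ + 2 ≤ C * (n + 1)) {c : G → ℝ} (hc : Measurable c)
    (hb : ∀ R, ∃ M, ∀ g, l.len g ≤ R → |c g| ≤ M) {Bd : ℝ}
    (hI : ∀ τ', B.Nice μ S C C₀ E n τ' s N → ∫ g, c g ∂τ' ≤ Bd) :
    ∃ v, l.len v ≤ 1 ∧ Integrable (fun δ => c (h * v * γ * δ)) σ ∧
      ∫ δ, c (h * v * γ * δ) ∂σ ≤ Bd := by
  set φ : G × G → G := fun p => h * p.1 * γ * p.2 with hφ
  have hφm : Measurable φ := Continuous.measurable (by fun_prop)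
  have hsupp : ∀ᵐ p ∂τ.prod σ, l.len (φ p) ≤ C * (n + 1) := by
    have h1 : ∀ᵐ p ∂τ.prod σ, l.len p.1 ≤ 1 := Measure.quasiMeasurePreserving_fst.ae hτ
    have h2 : ∀ᵐ p ∂τ.prod σ, l.len p.2 ≤ 1 := Measure.quasiMeasurePreserving_snd.ae hσ
    filter_upwards [h1, h2] with p h1 h2
    have := l.len_mul (h * p.1 * γ) p.2
    have := l.len_mul3 h p.1 γ
    show l.len (h * p.1 * γ * p.2) ≤ _
    omega
  have hn : B.Nice μ S C C₀ E n ((τ.prod σ).map φ) s N := by
    refine ⟨Measure.isProbabilityMeasure_map hφm.aemeasurable, hs, Or.inl hS, hN, ?_, ?_⟩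
    · exact (ae_map_iff hφm.aemeasurable (l.isClosed_le _).measurableSet).2 hsupp
    · intro j _ W _ hW U hU
      have hm : MeasurableSet {g : G | (s ^ j * g) • B.o ∈ U} :=
        hU.preimage (Continuous.measurable (by fun_prop))
      rw [Measure.map_apply hφm hm, Measure.prod_apply_symm (hφm hm)]
      refine le_trans ?_ le_self_add
      calc ∫⁻ δ, τ ((fun v => (v, δ)) ⁻¹' (φ ⁻¹' {g : G | (s ^ j * g) • B.o ∈ U})) ∂σ
          ≤ ∫⁻ _, C₀ * μ U ∂σ := by
            refine lintegral_mono_ae ?_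
            filter_upwards [hσ'] with δ hδ
            refine le_trans (le_of_eq ?_) (hbd (s ^ j * h) _ hδ U hU)
            congr 1
            ext v
            have : (s ^ j * h * v * (γ * δ * γ⁻¹)) • B.o = (s ^ j * (h * v * γ * δ)) • B.o := by
              conv_lhs => rw [← hγ, ← mul_smul]
              congr 1
              group
            simp only [hφ, mem_preimage, mem_ofPred_eq, this]
        _ = C₀ * μ U := by simp
        _ ≤ C₀ * μ (W • U) := by
            gcongr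
            intro x hx
            exact ⟨1, hW, x, hx, one_smul _ _⟩
  have hi : Integrable (fun p => c (φ p)) (τ.prod σ) := l.integrable_comp hc hb hφm hsupp
  have h1 := hI _ hn
  rw [integral_map hφm.aemeasurable hc.aestronglyMeasurable, integral_prod _ hi] at h1
  obtain ⟨v, hv, hv'⟩ := exists_notMem_null_le_integral hi.integral_prod_left (ae_iff.1 hτ)
  have hv1 : l.len v ≤ 1 := by simpa using hv
  refine ⟨v, hv1, ?_, hv'.trans h1⟩
  refine l.integrable_comp hc hb (by fun_prop) (R := C * (n + 1)) ?_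
  filter_upwards [hσ] with δ hδ
  have := l.len_mul (h * v * γ) δ
  have := l.len_mul3 h v γ
  omega

/-- A potential whose increments have a small mean on every nice piece grows slowly along the
lattice. -/
theorem pieces (P : Geo l Far S) (E : Equi l Far B.o μ) :
    ∃ (C m : ℕ) (C₀ : ℝ≥0∞) (Er : Set G → ℝ), 0 < C ∧ C₀ ≠ ∞ ∧ (∀ W, 0 ≤ Er W) ∧
      ∀ (n : ℕ) (γ : G), γ • B.o = B.o → l.len γ ≤ n →
      ∀ (Ψ : G → ℝ) (cost : G → ℕ → G → ℝ) (J Bd : ℝ), 0 ≤ Bd →
        (∀ s N, Measurable (cost s N)) →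
        (∀ s N R, ∃ M, ∀ g, l.len g ≤ R → |cost s N g| ≤ M) →
        (∀ s N g, l.len s ≤ C → Ψ (s ^ N * g) ≤ Ψ g + cost s N g) →
        (∀ u, l.len u ≤ 2 → Ψ u ≤ Ψ 1 + J) → (∀ u, l.len u ≤ 2 → Ψ γ ≤ Ψ (u * γ) + J) →
        (∀ τ s N, B.Nice μ S C C₀ Er n τ s N → ∫ g, cost s N g ∂τ ≤ Bd) →
        Ψ γ ≤ Ψ 1 + 2 * J + m * Bd := by
  classical
  obtain ⟨τ, C₀, hτp, hC₀, hC₁, hτ, hbd⟩ := B.exists_bd μ
  choose! Er hEr using E.eq
  have hPC : (0 : ℝ) < P.C := by exact_mod_cast P.C_pos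
  obtain ⟨CT, hCT1, hCT2⟩ : ∃ CT : ℕ, 2 * P.C ≤ CT ∧ |E.C| + 1 ≤ E.κ * (CT / P.C) := by
    obtain ⟨k, hk⟩ := exists_nat_ge ((|E.C| + 1) / E.κ)
    refine ⟨(k + 2) * P.C, by nlinarith, ?_⟩
    rw [div_le_iff₀ E.κ_pos] at hk
    have : (((k + 2) * P.C : ℕ) : ℝ) / P.C = k + 2 := by push_cast; field_simp
    rw [this]
    nlinarith [E.κ_pos]
  set Lb := l.len P.b with hLb
  set C : ℕ := P.C + Lb + P.C * CT + CT * (Lb + P.m * (P.C * P.C)) + CT + 3 with hC
  refine ⟨C, P.m + 2, C₀, fun W => |Er W|, by omega, hC₀, fun W => abs_nonneg _, ?_⟩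
  intro n γ hγ hn Ψ cost J Bd hBd hm hb hΨ hJ1 hJ2 hI
  set σ := E.σ n with hσdef
  have hσp : IsProbabilityMeasure σ := E.prob n
  have hσ : ∀ᵐ δ ∂σ, l.len δ ≤ 1 := by
    filter_upwards [E.small n] with δ hδ
    simpa using hδ 1 (by rw [l.len_one]; omega)
  have hσ' : ∀ᵐ δ ∂σ, l.len (γ * δ * γ⁻¹) ≤ 1 := by
    filter_upwards [E.small n] with δ hδ using hδ γ hn
  set T : ℕ := CT * (n + 1) with hT
  have hbT : l.len (P.b ^ T) ≤ CT * Lb * (n + 1) := by
    have := l.len_pow P.b T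
    rw [hT] at this ⊢
    nlinarith
  have hCn : C * (n + 1) = (P.C + Lb + P.C * CT) * (n + 1) + CT * Lb * (n + 1) +
      P.m * (P.C * (P.C * T)) + T + 3 * n + 3 := by rw [hC, hT]; ring
  obtain ⟨v, hv, hi1, hI1⟩ := B.leg hτ hbd 1 1 (one_smul _ _) hσ (by simpa using hσ)
    (C := C) (n := n) (N := T) (E := fun W => |Er W|) (s := P.b) (by omega) P.b_mem (by omega)
    (by rw [l.len_one]; omega) (hm P.b T) (hb P.b T) (fun τ' h => hI τ' _ _ h)
  obtain ⟨v', hv', hi3, hI3⟩ := B.leg hτ hbd (P.b ^ T) γ hγ hσ hσ'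
    (C := C) (n := n) (N := T) (E := fun W => |Er W|) (s := P.b⁻¹) (by rw [l.len_inv]; omega)
    P.b_inv_mem (by omega) (by omega) (hm P.b⁻¹ T) (hb P.b⁻¹ T) (fun τ' h => hI τ' _ _ h)
  have hch := P.chain (n + 1) T v (v' * γ) (by rw [hT]; nlinarith) (by omega)
    (by have := l.len_mul v' γ; omega)
  obtain ⟨c, hi2, hI2, hc⟩ := Chain.int (l := l) hσ (Ψ := Ψ) (cost := cost) (K := P.C * (P.C * T))
    (R := CT * Lb * (n + 1) + 1 + P.m * (P.C * (P.C * T))) hBd hm hb
    (fun s N y h => by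
      have := l.len_pow s N
      have := Nat.mul_le_mul h.2.2.1 h.1
      nlinarith)
    (fun s N y g h => hΨ s N g (h.1.trans (by omega)))
    (fun s N y h hy => by
      have hφ : Measurable fun δ : G => y * δ := by fun_prop
      rw [← integral_map hφ.aemeasurable (hm s N).aestronglyMeasurable]
      refine hI _ s N ⟨Measure.isProbabilityMeasure_map hφ.aemeasurable, h.1.trans (by omega),
        h.2.1, h.2.2.1.trans ?_, ?_, ?_⟩
      · rw [hCn, hT]
        nlinarith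
      · refine (ae_map_iff hφ.aemeasurable (l.isClosed_le _).measurableSet).2 ?_
        filter_upwards [hσ] with δ hδ
        have := l.len_mul y δ
        omega
      · intro j hj W hW h1 U hU
        have hms : MeasurableSet {g : G | (s ^ j * g) • B.o ∈ U} :=
          hU.preimage (Continuous.measurable (by fun_prop))
        rw [Measure.map_apply hφ hms]
        have h2 := hEr W hW h1 n _ _ (h.2.2.2 j hj) U hU
        refine le_trans (le_of_eq ?_) (h2.trans (add_le_add ?_ (ENNReal.ofReal_le_ofReal ?_)))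
        · congr 1
          ext δ
          simp [mul_assoc]
        · exact le_mul_of_one_le_left' hC₁
        · refine mul_le_mul (le_abs_self _) (Real.exp_le_exp.2 ?_) (Real.exp_pos _).le
            (abs_nonneg _)
          have h3 : E.κ * ((T : ℝ) / P.C) = E.κ * (CT / P.C) * (n + 1) := by
            rw [hT]; push_cast; ring
          have h4 : (0 : ℝ) ≤ n := by positivity
          have := le_abs_self E.C
          have := abs_nonneg E.C
          rw [h3]
          nlinarith)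
    hch (by have := l.len_mul (P.b ^ T) v; omega)
  have key : ∀ᵐ δ ∂σ, Ψ γ - (Ψ 1 + 2 * J) ≤
      cost P.b T (1 * v * 1 * δ) + c δ + cost P.b⁻¹ T (P.b ^ T * v' * γ * δ) := by
    filter_upwards [hσ, hσ'] with δ h1 h2
    have e1 := hJ1 (v * δ) (by have := l.len_mul v δ; omega)
    have e2 := hΨ P.b T (v * δ) (by omega)
    have e3 := hc δ
    have e4 := hΨ P.b⁻¹ T (P.b ^ T * v' * γ * δ) (by rw [l.len_inv]; omega)
    have e5 := hJ2 (v' * (γ * δ * γ⁻¹)) (by have := l.len_mul v' (γ * δ * γ⁻¹); omega)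
    have q1 : P.b⁻¹ ^ T * (P.b ^ T * v' * γ * δ) = v' * (γ * δ * γ⁻¹) * γ := by group
    have q2 : P.b ^ T * (v' * γ) * δ = P.b ^ T * v' * γ * δ := by group
    have q3 : P.b ^ T * v * δ = P.b ^ T * (v * δ) := by group
    have q4 : 1 * v * 1 * δ = v * δ := by group
    rw [q1] at e4
    rw [q2, q3] at e3
    rw [q4]
    linarith
  have hi12 : Integrable (fun δ => cost P.b T (1 * v * 1 * δ) + c δ) σ := hi1.add hi2
  have := integral_mono_ae (integrable_const _) (hi12.add hi3) key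
  simp only [integral_const, probReal_univ, smul_eq_mul, Pi.add_apply] at this
  rw [integral_add hi12 hi3, integral_add hi1 hi2] at this
  push_cast
  linarith

end Base

end Pool.Agent.P.MP_d483fb_an.Z
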