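import Pool.Agent.P.MP_d483fb_an.Z.Path.Len

/-!
Bounded densities and exponential tails of the height.
-/

open scoped Topology Pointwise ENNReal
open MeasureTheory Filter Set

set_option linter.unusedSectionVars false

namespace Pool.Agent.P.MP_d483fb_an.Z

variable {G : Type} [Group G] [TopologicalSpace G] [IsTopologicalGroup G] [T2Space G]
  [LocallyCompactSpace G] [SecondCountableTopology G] [MeasurableSpace G] [BorelSpace G]
  {X : Type} [TopologicalSpace X] [T2Space X] [SecondCountableTopology X] [MeasurableSpace X]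
  [BorelSpace X] [MulAction G X] [ContinuousSMul G X]
  {μ : Measure X} [IsProbabilityMeasure μ] [SMulInvariantMeasure G X μ]
  {l : Len G} {Far : G → ℝ → Prop} {S : Set G}

namespace Base

variable (B : Base l X)

theorem pos_ball (μ : Measure X) [IsProbabilityMeasure μ] [SMulInvariantMeasure G X μ] :
    μ {x | B.ht x ≤ 1} ≠ 0 := by
  intro h0
  set U : Set X := (fun g : G => g • B.o) '' interior {g | l.len g ≤ 1} with hU
  have hUo : IsOpen U := B.opn _ isOpen_interior
  have hU0 : μ U = 0 := by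
    refine measure_mono_null ?_ h0
    rintro _ ⟨g, hg, rfl⟩
    exact (B.ht_smul_o g).trans (interior_subset (s := {g | l.len g ≤ 1}) hg)
  have hcov : ∀ x : X, ∃ g : G, x ∈ (fun y => g • y) ⁻¹' U := by
    intro x
    obtain ⟨g, rfl⟩ := B.trans x
    refine ⟨g⁻¹, 1, mem_interior_iff_mem_nhds.2 l.nhds, ?_⟩
    simp
  obtain ⟨T, hT, hTU⟩ := TopologicalSpace.isOpen_iUnion_countable
    (fun g : G => (fun y : X => g • y) ⁻¹' U) (fun g => hUo.preimage (by fun_prop))
  have : μ (⋃ g ∈ T, (fun y : X => g • y) ⁻¹' U) = 0 := by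
    rw [measure_biUnion_null_iff hT]
    intro g _
    rw [SMulInvariantMeasure.measure_preimage_smul g hUo.measurableSet, hU0]
  rw [hTU, iUnion_eq_univ_iff.2 hcov, measure_univ] at this
  exact one_ne_zero this

/-- A random element of the unit ball gives a bounded density. -/
theorem exists_bd (μ : Measure X) [IsProbabilityMeasure μ] [SMulInvariantMeasure G X μ] :
    ∃ (τ : Measure G) (C : ℝ≥0∞), IsProbabilityMeasure τ ∧ C ≠ ∞ ∧ 1 ≤ C ∧
      (∀ᵐ v ∂τ, l.len v ≤ 1) ∧
      ∀ g w : G, l.len w ≤ 1 → ∀ U : Set X, MeasurableSet U →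
        τ {v | (g * v * w) • B.o ∈ U} ≤ C * μ U := by
  set lam : Measure G := (Measure.haar : Measure G).inv with hlam
  set Q : Set G := {g | l.len g ≤ 1} with hQ
  have hQm : MeasurableSet Q := (l.isClosed_le 1).measurableSet
  have hQ0 : lam Q ≠ 0 := (Measure.measure_pos_of_mem_nhds lam l.nhds).ne'
  have hfin : ∀ n, lam {g | l.len g ≤ n} ≠ ∞ := fun n => (l.cpt n).measure_lt_top.ne
  have hp := B.pos_ball μ
  set C : ℝ≥0∞ := (lam Q)⁻¹ * (lam {g | l.len g ≤ 3} / μ {x | B.ht x ≤ 1}) with hC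
  refine ⟨ProbabilityTheory.cond lam Q, max C 1,
    ProbabilityTheory.cond_isProbabilityMeasure_of_finite hQ0 (hfin 1), ?_, le_max_right _ _,
    ProbabilityTheory.ae_cond_mem hQm, ?_⟩
  · refine (max_lt ?_ ENNReal.one_lt_top).ne
    exact ENNReal.mul_lt_top (ENNReal.inv_lt_top.2 (pos_iff_ne_zero.2 hQ0))
      (ENNReal.div_lt_top (hfin 3) hp)
  intro g w hw U hU
  set U' : Set X := (fun y => g • y) ⁻¹' U with hU'
  have hU'm : MeasurableSet U' := hU.preimage (by fun_prop)
  have hμ : μ U' = μ U := SMulInvariantMeasure.measure_preimage_smul g hU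
  set t := lam (Q ∩ {v | (g * v * w) • B.o ∈ U}) with ht
  set E : Set (X × G) := {p | l.len p.2 ≤ 3 ∧ p.2 • p.1 ∈ U'} with hE
  have hEm : MeasurableSet E := by
    refine MeasurableSet.inter ?_ ?_
    · exact (l.isClosed_le 3).measurableSet.preimage measurable_snd
    · exact hU'm.preimage (Continuous.measurable (by fun_prop))
  have h1 : ∀ x, B.ht x ≤ 1 → t ≤ lam (Prod.mk x ⁻¹' E) := by
    intro x hx
    obtain ⟨w', hw', rfl⟩ := B.ht_le_iff.1 hx
    rw [← measure_preimage_mul_right lam (w * w'⁻¹) (Prod.mk (w' • B.o) ⁻¹' E)]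
    refine measure_mono ?_
    rintro v ⟨hv, hvU⟩
    refine ⟨?_, ?_⟩
    · have := l.len_mul v (w * w'⁻¹)
      have := l.len_mul w w'⁻¹
      rw [l.len_inv] at this
      have : l.len v ≤ 1 := hv
      show l.len (v * (w * w'⁻¹)) ≤ 3
      omega
    · show g • (v * (w * w'⁻¹)) • w' • B.o ∈ U
      have : (g * v * w) • B.o ∈ U := hvU
      convert this using 1
      simp only [← mul_smul]
      congr 1
      group
  have h2 : (μ.prod lam) E = lam {g | l.len g ≤ 3} * μ U := by
    rw [Measure.prod_apply_symm hEm]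
    have : ∀ u : G, μ ((fun x => (x, u)) ⁻¹' E) = {g | l.len g ≤ 3}.indicator (fun _ => μ U) u := by
      intro u
      by_cases hu : l.len u ≤ 3
      · rw [indicator_of_mem (show u ∈ {g | l.len g ≤ 3} from hu), ← hμ,
          ← SMulInvariantMeasure.measure_preimage_smul u hU'm]
        congr 1
        ext x
        simp [hE, hu]
      · rw [indicator_of_notMem (show u ∉ {g | l.len g ≤ 3} from hu)]
        have : (fun x => (x, u)) ⁻¹' E = ∅ := by
          ext x
          simp [hE, hu]
        rw [this, measure_empty]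
    simp_rw [this]
    rw [lintegral_indicator (l.isClosed_le 3).measurableSet, setLIntegral_const, mul_comm]
  have h3 : t * μ {x | B.ht x ≤ 1} ≤ (μ.prod lam) E := by
    rw [Measure.prod_apply hEm, ← setLIntegral_const]
    refine le_trans ?_ (setLIntegral_le_lintegral {x | B.ht x ≤ 1} _)
    exact setLIntegral_mono' (B.isCompact_le 1).isClosed.measurableSet h1
  have h4 : t ≤ lam {g | l.len g ≤ 3} / μ {x | B.ht x ≤ 1} * μ U := by
    rw [h2] at h3
    rw [ENNReal.div_eq_inv_mul, mul_assoc]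
    rw [← ENNReal.le_div_iff_mul_le (Or.inl hp) (Or.inl (measure_ne_top _ _)),
      ENNReal.div_eq_inv_mul] at h3
    exact h3
  rw [ProbabilityTheory.cond_apply hQm]
  calc (lam Q)⁻¹ * t ≤ (lam Q)⁻¹ * (lam {g | l.len g ≤ 3} / μ {x | B.ht x ≤ 1} * μ U) := by gcongr
    _ = C * μ U := by rw [hC, mul_assoc]
    _ ≤ max C 1 * μ U := by gcongr; exact le_max_left _ _

theorem smul_le_subset (t : ℕ) :
    interior {g : G | l.len g ≤ 1} • {x | B.ht x ≤ t} ⊆ {x | B.ht x ≤ t + 1} := by
  rintro _ ⟨g, hg, x, hx, rfl⟩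
  have h1 : l.len g ≤ 1 := interior_subset (s := {g | l.len g ≤ 1}) hg
  have h2 : B.ht x ≤ t := hx
  have := B.ht_smul g x
  show B.ht (g • x) ≤ t + 1
  omega

theorem smul_lt_subset (t : ℕ) :
    interior {g : G | l.len g ≤ 1} • {x | t + 1 < B.ht x} ⊆ {x | t < B.ht x} := by
  rintro _ ⟨g, hg, x, hx, rfl⟩
  have h1 : l.len g ≤ 1 := interior_subset (s := {g | l.len g ≤ 1}) hg
  have h2 : t + 1 < B.ht x := hx
  have := B.ht_le_smul g x
  show t < B.ht (g • x)
  omega

/-- Exponential tails of the height. -/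
theorem tail (P : Geo l Far S) (E : Equi l Far B.o μ) :
    ∃ C c : ℝ, 0 < c ∧
      ∀ t : ℕ, μ {x | t < B.ht x} ≤ ENNReal.ofReal (C * Real.exp (-c * t)) := by
  obtain ⟨E0, hE0⟩ := E.eq (interior {g : G | l.len g ≤ 1}) isOpen_interior
    (mem_interior_iff_mem_nhds.2 l.nhds)
  have := E.prob 0
  set L : ℕ := l.len P.b + 1 with hL
  have hL0 : (0 : ℝ) < L := by positivity
  have hC0 : (0 : ℝ) < P.C := by exact_mod_cast P.C_pos
  have key : ∀ T : ℕ, P.C ≤ T → μ {x | T * L + 2 < B.ht x} ≤
      ENNReal.ofReal (E0 * Real.exp (-E.κ * (T / P.C))) := by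
    intro T hT
    have h := hE0 0 (P.b ^ T) _ (P.far T hT) {x | B.ht x ≤ T * L + 1}
      (B.isCompact_le _).isClosed.measurableSet
    have h1 : E.σ 0 {δ | (P.b ^ T * δ) • B.o ∈ {x | B.ht x ≤ T * L + 1}} = 1 := by
      refine le_antisymm prob_le_one ?_
      rw [← measure_univ (μ := E.σ 0)]
      refine measure_mono_ae ?_
      filter_upwards [E.small 0] with δ hδ _
      have h2 := hδ 1 (by rw [l.len_one])
      rw [one_mul, inv_one, mul_one] at h2
      have := B.ht_smul_o (P.b ^ T * δ)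
      have := l.len_mul (P.b ^ T) δ
      have := l.len_pow P.b T
      show B.ht ((P.b ^ T * δ) • B.o) ≤ T * L + 1
      have : T * l.len P.b ≤ T * L := Nat.mul_le_mul_left _ (by omega)
      omega
    rw [h1] at h
    have h2 : μ (interior {g : G | l.len g ≤ 1} • {x | B.ht x ≤ T * L + 1}) ≤
        μ {x | B.ht x ≤ T * L + 2} := measure_mono (B.smul_le_subset _)
    have h3 : {x | T * L + 2 < B.ht x} = {x | B.ht x ≤ T * L + 2}ᶜ := by
      ext x
      simp
    rw [h3, prob_compl_eq_one_sub (B.isCompact_le _).isClosed.measurableSet, tsub_le_iff_left]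
    refine h.trans (add_le_add h2 (le_of_eq ?_))
    congr 3
    simp
  set c : ℝ := E.κ / (L * P.C) with hc
  have hc0 : 0 < c := div_pos E.κ_pos (by positivity)
  set t0 : ℕ := P.C * L + 2 with ht0
  refine ⟨max (|E0| * Real.exp (c * (L + 2))) (Real.exp (c * t0)), c, hc0, fun t => ?_⟩
  rcases le_or_gt t0 t with ht | ht
  · set T : ℕ := (t - 2) / L with hT
    have hL' : 0 < L := by omega
    have hT1 : P.C ≤ T := (Nat.le_div_iff_mul_le hL').2 (by omega)
    have hT2 : T * L + 2 ≤ t := by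
      have : T * L ≤ t - 2 := Nat.div_mul_le_self (t - 2) L
      omega
    have hT3 : t < T * L + L + 2 := by
      have : t - 2 < T * L + L := Nat.lt_div_mul_add (a := t - 2) hL'
      omega
    refine (measure_mono ?_).trans ((key T hT1).trans (ENNReal.ofReal_le_ofReal ?_))
    · intro x hx
      have : t < B.ht x := hx
      show T * L + 2 < B.ht x
      omega
    · refine le_trans ?_ (mul_le_mul_of_nonneg_right (le_max_left _ _) (Real.exp_pos _).le)
      rw [mul_assoc, ← Real.exp_add]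
      refine mul_le_mul (le_abs_self _) (Real.exp_le_exp.2 ?_) (Real.exp_pos _).le (abs_nonneg _)
      have h1 : (t : ℝ) ≤ T * L + L + 2 := by exact_mod_cast hT3.le
      have h2 : E.κ * (T / P.C) = c * (T * L) := by rw [hc]; field_simp
      nlinarith
  · refine prob_le_one.trans ?_
    rw [← ENNReal.ofReal_one]
    refine ENNReal.ofReal_le_ofReal ?_
    refine le_trans ?_ (mul_le_mul_of_nonneg_right (le_max_right _ _) (Real.exp_pos _).le)
    rw [← Real.exp_add]
    refine Real.one_le_exp ?_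
    have : (t : ℝ) ≤ t0 := by exact_mod_cast ht.le
    nlinarith

end Base

end Pool.Agent.P.MP_d483fb_an.Z
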